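import Pool.Agent.Lib.MP_305fdd_al.Su.U.Lau
import Pool.Agent.Lib.MP_305fdd_al.Fr.V.Stm

/-!
# MP_305fdd_al, surface groups, block U (helper50): LEMMA G

`P` is a finitely generated subgroup of `Γ` whose traces lie in the ring of the traces of the vertex
groups of a splitting `S` without semi-good valuation; `h` is a nonzero element of the ring of the
traces of `P`.  If the Cartier operators are nilpotent up to powers of `h` then there is a semi-good
valuation on the field of the traces of `P`; so `P` splits by Theorem R.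
-/

set_option autoImplicit false
set_option linter.unusedSectionVars false

namespace Pool.Agent.SuU

open Matrix Pool.Agent.FrS Pool.Agent.FrN Pool.Agent.FrAsm Pool.Agent.SuS Pool.Agent.SuL
  Pool.Agent.F2Ch Pool.Agent.F2RF Pool.Agent.FrD

section

variable {Γ K F : Type} [Group Γ] [Field K] [Field F] [Algebra (ZMod 2) K]
  [Algebra (ZMod 2) F] [Algebra K F]

/-- the ring of the traces of `P` -/
def BP (T : Γ → K) (P : Subgroup Γ) : Subalgebra (ZMod 2) K :=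
  Algebra.adjoin (ZMod 2) (T '' (P : Set Γ))

/-- the field of the traces of `P` -/
def KP (T : Γ → K) (P : Subgroup Γ) : IntermediateField (ZMod 2) K :=
  IntermediateField.adjoin (ZMod 2) (T '' (P : Set Γ))

/-- there is a semi-good valuation on the field of the traces of `P` -/
def SGP (T : Γ → K) (P : Subgroup Γ) : Prop :=
  ∃ x : KP T P → ℝ, IsV x ∧ (∃ z, x z ≠ 0) ∧ ∀ z : KP T P, (z : K) ∈ BP T P → z ≠ 0 → x z ≤ 0

/-- nilpotence of the Cartier operators up to powers of `h` (output of the block NILG) -/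
def NILh (T : Γ → K) (y h : K) : Prop :=
  ∃ Φ : K → K, LogTy 2 Φ ∧ ∃ c ∈ BB 2 T, c ≠ 0 ∧ ∀ b ∈ ly (BB 2 T) y, ∃ e j : ℕ,
    ∀ β ∈ BB 2 T, ∃ n : ℕ, Φ^[n] (β * (h ^ j * Φ^[e] (b * c))) = 0

/-- The form in which `NILh` is proved: a nonzero submodule `M` on which `Φ` is nilpotent, such that
for every `m` in `M[1/y]` some `h ^ j * Φ^[e] m` lies in `M`. -/
theorem nilh_of {T : Γ → K} (hf : Frc (BB 2 T)) {Φ : K → K} (hΦ : LogTy 2 Φ)
    (M : Submodule (BB 2 T) K) (hM : M ≠ ⊥) (hn : ∀ m ∈ M, ∃ e : ℕ, Φ^[e] m = 0) {y h : K}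
    (hy : y ∈ BB 2 T) (hy0 : y ≠ 0)
    (hM' : ∀ m : K, (∃ a : ℕ, y ^ a * m ∈ M) → ∃ e j : ℕ, h ^ j * Φ^[e] m ∈ M) :
    NILh T y h := by
  obtain ⟨m, hm, hm0⟩ := (Submodule.ne_bot_iff M).1 hM
  obtain ⟨a, ha, b, hb, hb0, hab⟩ := hf m
  refine ⟨Φ, hΦ, a, ha, ?_, ?_⟩
  · rw [← hab]
    exact mul_ne_zero hm0 hb0
  · intro z hz
    obtain ⟨β, hβ, r, rfl⟩ := ly_form hy hy0 hz
    obtain ⟨e, j, h1⟩ := hM' (β / y ^ r * a) ⟨r, by
      have h2 : y ^ r * (β / y ^ r * a) = β * b * m := by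
        rw [← hab, ← mul_assoc, mul_div_cancel₀ β (pow_ne_zero _ hy0)]
        ring
      rw [h2]
      exact M.smul_mem (⟨β * b, mul_mem hβ hb⟩ : BB 2 T) hm⟩
    refine ⟨e, j, fun γ hγ => hn _ ?_⟩
    exact M.smul_mem (⟨γ, hγ⟩ : BB 2 T) h1

variable {T : Γ → K} {ρ : Γ →* SpecialLinearGroup (Fin 2) F}

theorem BP_frac (P : Subgroup Γ) (x : KP T P) :
    ∃ a ∈ (BP T P).comap (KP T P).val, ∃ b ∈ (BP T P).comap (KP T P).val, b ≠ 0 ∧ x * b = a := by
  obtain ⟨x, hx⟩ := x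
  have h1 : BP T P ≤ (KP T P).toSubalgebra := IntermediateField.algebra_adjoin_le_adjoin _ _
  obtain ⟨r, hr, s, hs, rfl⟩ := IntermediateField.mem_adjoin_iff_div.mp hx
  by_cases h0 : s = 0
  · refine ⟨0, zero_mem _, 1, one_mem _, one_ne_zero, ?_⟩
    apply Subtype.ext
    change r / s * 1 = 0
    rw [h0, div_zero, zero_mul]
  · refine ⟨⟨r, h1 hr⟩, hr, ⟨s, h1 hs⟩, hs, fun h => h0 (congrArg Subtype.val h), ?_⟩
    apply Subtype.ext
    change r / s * s = r
    rw [div_mul_cancel₀ _ h0]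

theorem BP_fg (H : TrD T ρ) {P : Subgroup Γ} (hP : P.FG) : (BP T P).FG := by
  have hf : Group.FG P := (Group.fg_iff_subgroup_fg _).mpr hP
  have hp : Pool.Agent.CC.PChar (F := ZMod 2) (1 : P →* (ZMod 2)ˣ) (fun x : P => T x) :=
    { one := TrD.one H
      comm := fun g h => TrD.comm H g h
      rel := fun g h => by
        rw [MonoidHom.one_apply, Units.val_one, map_one, one_mul]
        exact TrD.rel H g h }
  obtain ⟨s, hs⟩ := hp.fg
  refine ⟨s, hs.trans ?_⟩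
  unfold BP
  congr 1
  ext z
  constructor
  · rintro ⟨x, rfl⟩
    exact ⟨x, x.2, rfl⟩
  · rintro ⟨x, hx, rfl⟩
    exact ⟨⟨x, hx⟩, rfl⟩

theorem BP_comap_fg (H : TrD T ρ) {P : Subgroup Γ} (hP : P.FG) :
    ((BP T P).comap (KP T P).val).FG := by
  refine Subalgebra.fg_of_fg_map _ (KP T P).val (KP T P).val.injective ?_
  have h1 : ((BP T P).comap (KP T P).val).map (KP T P).val = BP T P := by
    rw [Subalgebra.map_comap_eq]
    refine inf_eq_left.mpr ?_
    intro z hz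
    exact ⟨⟨z, IntermediateField.algebra_adjoin_le_adjoin _ _ hz⟩, rfl⟩
  rw [h1]
  exact BP_fg H hP

/-- LEMMA G: a semi-good valuation on the field of the traces of `P`. -/
theorem lemG (H : Sc Γ K F T ρ) (S : GG Γ) (hS : S.Adm) {y : K} (hy : y ∈ BV T S) (hy0 : y ≠ 0)
    (hns : ¬ ∃ x : KV T S → ℝ, IsV x ∧ Triv (ZMod 2) x ∧ (∃ z, x z ≠ 0) ∧
      ∀ z ∈ BVy T S y, z ≠ 0 → x z ≤ 0)
    (P : Subgroup Γ) (hPfg : P.FG) (hPS : ∀ g ∈ P, T g ∈ BV T S) {h : K} (hh : h ∈ BP T P)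
    (hh0 : h ≠ 0) (hnil : NILh T y h) : SGP T P := by
  have hle : KP T P ≤ KV T S := by
    unfold KP
    rw [IntermediateField.adjoin_le_iff]
    rintro _ ⟨g, hg, rfl⟩
    exact (IntermediateField.algebra_adjoin_le_adjoin _ _ (hPS g hg) : T g ∈ KV T S)
  have hBle : BP T P ≤ BV T S := by
    refine Algebra.adjoin_le ?_
    rintro _ ⟨g, hg, rfl⟩
    exact hPS g hg
  rcases dichotomy ((BP T P).comap (KP T P).val) (BP_comap_fg H.tr hPfg) (BP_frac P) with
    ⟨v, hv, _, hne, hvle⟩ | ⟨O, d, f, hb⟩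
  · exact ⟨v, hv, hne, fun z hz hz0 => hvle z hz hz0⟩
  · exfalso
    let iPV : KP T P →+* KV T S := (IntermediateField.inclusion hle).toRingHom
    let : Algebra (KP T P) (KV T S) := iPV.toAlgebra
    have : IsScalarTower (ZMod 2) (KP T P) (KV T S) :=
      IsScalarTower.of_algebraMap_eq' (Subsingleton.elim _ _)
    have hKf2 : CharP (KV T S) 2 :=
      charP_of_injective_algebraMap (algebraMap (ZMod 2) (KV T S)).injective 2
    have hQ := propU_rel (k := ZMod 2) 2 ((BP T P).comap (KP T P).val) (BP_frac P) (BVy T S y)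
      (by
        intro b hbP
        change (b : K) ∈ ly (BV T S) y
        exact le_ly _ _ (hBle hbP)) (sc_BVy_fg H hS.fgV hy) (BVy_frac y) hns hb
    have hQ' := p_lauU H S hS y hy hy0 _ hQ
    obtain ⟨Φ, hΦ, c, hc, hc0, hn⟩ := hnil
    obtain ⟨b, hbB, hU⟩ := hQ' Φ hΦ c (le_ly _ _ hc) hc0
    obtain ⟨e, j, hj⟩ := hn b hbB
    have hhK : h ∈ KP T P := IntermediateField.algebra_adjoin_le_adjoin _ _ hh
    obtain ⟨a, ha, hva⟩ := hb.bal ((⟨h, hhK⟩ : KP T P) ^ j)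
      (pow_mem (show (⟨h, hhK⟩ : KP T P) ∈ (BP T P).comap (KP T P).val from hh) j)
      (pow_ne_zero _ fun h0 => hh0 (congrArg Subtype.val h0))
    have haB : (a : K) ∈ BB 2 T := BV_le S (hBle ha)
    obtain ⟨n, hn0⟩ := hj (a : K) haB
    refine hU e _ ⟨_, ⟨(⟨h, hhK⟩ : KP T P) ^ j * a, hva, rfl⟩, rfl⟩ n ?_
    rw [← hn0]
    congr 1
    have h1 : algebraMap (KV T S) K (algebraMap (KP T P) (KV T S) ((⟨h, hhK⟩ : KP T P) ^ j * a)) =
        h ^ j * (a : K) := rfl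
    rw [h1]
    ring

/-- A semi-good valuation on the field of the traces of a finitely generated non-commutative subgroup
gives a splitting of this subgroup. -/
theorem out_of_sgp (hV : FrV.S_V) (htr : TrD T ρ) (hdiv : ∀ g, (ρ g).1.trace = 0 → g = 1)
    (P : Subgroup Γ) (hPfg : P.FG) (hnc : ¬ FrV.Cm P) (h : SGP T P) :
    FrV.Out ρ P (fun e : Empty => e.elim) := by
  classical
  obtain ⟨x, hx, hne, hle⟩ := h
  have hT : ∀ g ∈ P, T g ∈ KP T P := fun g hg => IntermediateField.subset_adjoin _ _ ⟨g, hg, rfl⟩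
  let T1 : Γ → KP T P := fun g => if hg : g ∈ P then ⟨T g, hT g hg⟩ else 0
  have hT1 : ∀ g (hg : g ∈ P), T1 g = ⟨T g, hT g hg⟩ := fun g hg => dif_pos hg
  let : Algebra (KP T P) F := ((algebraMap K F).comp (algebraMap (KP T P) K)).toAlgebra
  have hadj : ∀ b : KP T P, b ∈ Algebra.adjoin (ZMod 2) (T1 '' (P : Set Γ)) ↔ (b : K) ∈ BP T P := by
    intro b
    have h1 : (Algebra.adjoin (ZMod 2) (T1 '' (P : Set Γ))).map (KP T P).val = BP T P := by
      rw [AlgHom.map_adjoin]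
      unfold BP
      congr 1
      ext a
      constructor
      · rintro ⟨_, ⟨g, hg, rfl⟩, rfl⟩
        refine ⟨g, hg, ?_⟩
        rw [hT1 g hg]
        rfl
      · rintro ⟨g, hg, rfl⟩
        refine ⟨_, ⟨g, hg, rfl⟩, ?_⟩
        rw [hT1 g hg]
        rfl
    rw [← h1]
    constructor
    · exact fun hb => ⟨b, hb, rfl⟩
    · rintro ⟨b', hb', hbb⟩
      have h2 : b' = b := Subtype.ext hbb
      rwa [h2] at hb'
  refine hV Γ (KP T P) F Empty T1 ρ P _ x ?_ ?_ hPfg hnc (fun e => e.elim) (fun e => e.elim)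
    (fun e => e.elim) hx ?_ ?_ (fun e => e.elim)
  · intro g hg
    rw [hT1 g hg, htr]
    rfl
  · intro g hg h0
    rw [hT1 g hg] at h0
    apply hdiv
    rw [htr]
    have h1 : T g = 0 := congrArg Subtype.val h0
    rw [h1, map_zero]
  · intro b hb hb0
    exact hle b ((hadj b).1 hb) hb0
  · by_contra hcon
    push Not at hcon
    obtain ⟨z, hz⟩ := hne
    obtain ⟨a, ha, b, hb, hb0, hab⟩ := BP_frac P z
    have ha' := hcon a ((hadj a).2 ha)
    have hb' := hcon b ((hadj b).2 hb)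
    apply hz
    by_cases hz0 : z = 0
    · rw [hz0, hx.zero]
    · have h3 := hx.mul z b hz0 hb0
      rw [hab, ha', hb', add_zero] at h3
      exact h3.symm

/-- LEMMA G: a finitely generated non-commutative subgroup `P` splits. -/
theorem lemG_out (hV : FrV.S_V) (H : Sc Γ K F T ρ) (S : GG Γ) (hS : S.Adm) {y : K}
    (hy : y ∈ BV T S) (hy0 : y ≠ 0)
    (hns : ¬ ∃ x : KV T S → ℝ, IsV x ∧ Triv (ZMod 2) x ∧ (∃ z, x z ≠ 0) ∧
      ∀ z ∈ BVy T S y, z ≠ 0 → x z ≤ 0)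
    (P : Subgroup Γ) (hPfg : P.FG) (hnc : ¬ FrV.Cm P) (hPS : ∀ g ∈ P, T g ∈ BV T S) {h : K}
    (hh : h ∈ BP T P) (hh0 : h ≠ 0) (hnil : NILh T y h) :
    FrV.Out ρ P (fun e : Empty => e.elim) :=
  out_of_sgp hV H.tr H.div P hPfg hnc (lemG H S hS hy hy0 hns P hPfg hPS hh hh0 hnil)

end

end Pool.Agent.SuU
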