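import Pool.Agent.Lib.MP_305fdd_al.Su.U.LauR
import Pool.Agent.Lib.MP_305fdd_al.Su.U.Main

/-!
# MP_305fdd_al, surface groups, block U (helper50): LEMMA G, the form with nilpotence

`PropR` for `B[1/y]` over the field of the traces of `P` and `NILh` (nilpotence up to powers of an
element `h` of the ring of the traces of `P`) imply that the Cartier operators of the field of the traces
of `P` are nilpotent on a nonzero ideal of the ring of the traces of `P`.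
-/

set_option autoImplicit false
set_option linter.unusedSectionVars false

namespace Pool.Agent.SuU

open Matrix Pool.Agent.FrS Pool.Agent.FrN Pool.Agent.FrAsm Pool.Agent.SuS Pool.Agent.SuL
  Pool.Agent.F2Ch Pool.Agent.F2RF Pool.Agent.FrD

theorem pinv_iter {K : Type} [Field K] {p : ℕ} {Φ : K → K} (h : IsPinv p Φ) (e : ℕ) (x z : K) :
    Φ^[e] (x ^ (p ^ e) * z) = x * Φ^[e] z := by
  induction e generalizing z with
  | zero => rw [pow_zero, pow_one, Function.iterate_zero, id, id]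
  | succ e ih =>
    rw [Function.iterate_succ_apply, Function.iterate_succ_apply, pow_succ p e, pow_mul, h.pow_mul,
      ih]

/-- THE END OF LEMMA G. -/
theorem nil_sub {K₁ K : Type} [Field K₁] [Field K] [CharP K₁ 2] [CharP K 2] (i : K₁ →+* K)
    (B₁ : Subring K₁) (hfrac : ∀ x : K₁, ∃ a ∈ B₁, ∃ b ∈ B₁, b ≠ 0 ∧ x * b = a) (B L : Subring K)
    (hB₁ : ∀ b ∈ B₁, i b ∈ B) (hBL : ∀ b ∈ B, b ∈ L) (hR : PropR 2 i L) {h : K₁} (hh : h ∈ B₁)
    (hh0 : h ≠ 0) {Φ : K → K} (hΦ : LogTy 2 Φ) {c : K} (hc : c ∈ L) (hc0 : c ≠ 0)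
    (hnil : ∀ b ∈ L, ∃ e j : ℕ, ∀ β ∈ B, ∃ n : ℕ, Φ^[n] (β * (i h ^ j * Φ^[e] (b * c))) = 0)
    {ψ : K₁ → K₁} (hψ : LogTy 2 ψ) :
    ∃ c₁ ∈ B₁, c₁ ≠ 0 ∧ ∀ b ∈ B₁, ∃ n : ℕ, ψ^[n] (b * c₁) = 0 := by
  have : Fact (Nat.Prime 2) := ⟨Nat.prime_two⟩
  have pΦ := lt_pinv (p := 2) hΦ
  have pψ := lt_pinv (p := 2) hψ
  by_contra hcon
  push Not at hcon
  obtain ⟨b, hb, η, hη, hR'⟩ := hR Φ hΦ ψ hψ c hc hc0
  obtain ⟨a, ha, d, hd, hd0, had⟩ := hfrac η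
  have ha0 : a ≠ 0 := by
    rw [← had]
    exact mul_ne_zero hη hd0
  obtain ⟨b', hb', hb'n⟩ := hcon (a * d) (B₁.mul_mem ha hd) (mul_ne_zero ha0 hd0)
  have h0 : ∀ n, ψ^[n] (b' * d ^ 2 * η) ≠ 0 := by
    intro n
    have h1 : b' * d ^ 2 * η = b' * (a * d) := by
      rw [← had]
      ring
    rw [h1]
    exact hb'n n
  have hβ₀ : b' * d ^ 2 ∈ B₁ := B₁.mul_mem hb' (B₁.pow_mem hd 2)
  obtain ⟨e, j, hn⟩ := hnil (i (b' * d ^ 2) * b) (L.mul_mem (hBL _ (hB₁ _ hβ₀)) hb)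
  have hη₁ : h ^ j * ψ^[e] (b' * d ^ 2 * η) ≠ 0 := mul_ne_zero (pow_ne_zero _ hh0) (h0 e)
  obtain ⟨a1, ha1, d1, hd1, hd10, had1⟩ := hfrac (h ^ j * ψ^[e] (b' * d ^ 2 * η))
  have ha10 : a1 ≠ 0 := by
    rw [← had1]
    exact mul_ne_zero hη₁ hd10
  obtain ⟨b1, hb1, hb1n⟩ := hcon (a1 * d1) (B₁.mul_mem ha1 hd1) (mul_ne_zero ha10 hd10)
  obtain ⟨n, hn0⟩ := hn (i (b1 * d1 ^ 2)) (hB₁ _ (B₁.mul_mem hb1 (B₁.pow_mem hd1 2)))
  have h2 : Φ^[n + e] (i ((b1 * d1 ^ 2 * h ^ j) ^ (2 ^ e) * (b' * d ^ 2)) * (b * c)) = 0 := by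
    rw [Function.iterate_add_apply]
    have h3 : i ((b1 * d1 ^ 2 * h ^ j) ^ (2 ^ e) * (b' * d ^ 2)) * (b * c) =
        (i (b1 * d1 ^ 2 * h ^ j)) ^ (2 ^ e) * (i (b' * d ^ 2) * b * c) := by
      rw [map_mul, map_pow]
      ring
    rw [h3, pinv_iter pΦ, ← hn0]
    congr 1
    rw [map_mul i (b1 * d1 ^ 2), map_pow i h, mul_assoc]
  have h4 := hR' _ _ h2
  rw [Function.iterate_add_apply, mul_assoc, pinv_iter pψ] at h4
  refine hb1n n ?_
  rw [← h4]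
  congr 1
  rw [← had1]
  ring

section

variable {Γ K F : Type} [Group Γ] [Field K] [Field F] [Algebra (ZMod 2) K]
  [Algebra (ZMod 2) F] [Algebra K F] {T : Γ → K} {ρ : Γ →* SpecialLinearGroup (Fin 2) F}

theorem KP_le {P : Subgroup Γ} {S : GG Γ} (hPS : ∀ g ∈ P, T g ∈ BV T S) : KP T P ≤ KV T S := by
  unfold KP
  rw [IntermediateField.adjoin_le_iff]
  rintro _ ⟨g, hg, rfl⟩
  exact (IntermediateField.algebra_adjoin_le_adjoin _ _ (hPS g hg) : T g ∈ KV T S)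

/-- the inclusion of the fields of the traces -/
def iPV {P : Subgroup Γ} {S : GG Γ} (hPS : ∀ g ∈ P, T g ∈ BV T S) : KP T P →+* KV T S :=
  (IntermediateField.inclusion (KP_le hPS)).toRingHom

/-- LEMMA G: the Cartier operators of the field of the traces of `P` are nilpotent on a nonzero ideal of
the ring of the traces of `P`. -/
theorem lemG_nil (H : Sc Γ K F T ρ) (S : GG Γ) (hS : S.Adm) {y : K} (hy : y ∈ BV T S) (hy0 : y ≠ 0)
    (P : Subgroup Γ) (hPS : ∀ g ∈ P, T g ∈ BV T S) (hR : PropR 2 (iPV hPS) (BVy T S y).toSubring)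
    {h : K} (hh : h ∈ BP T P) (hh0 : h ≠ 0) (hnil : NILh T y h) {ψ : KP T P → KP T P}
    (hψ : LogTy 2 ψ) :
    ∃ c₁ : KP T P, (c₁ : K) ∈ BP T P ∧ c₁ ≠ 0 ∧
      ∀ b : KP T P, (b : K) ∈ BP T P → ∃ n : ℕ, ψ^[n] (b * c₁) = 0 := by
  have hK2 : CharP K 2 := charP_of_injective_algebraMap (algebraMap (ZMod 2) K).injective 2
  have hP2 : CharP (KP T P) 2 :=
    charP_of_injective_algebraMap (algebraMap (ZMod 2) (KP T P)).injective 2
  have hBle : BP T P ≤ BV T S := by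
    refine Algebra.adjoin_le ?_
    rintro _ ⟨g, hg, rfl⟩
    exact hPS g hg
  obtain ⟨Φ, hΦ, c, hc, hc0, hn⟩ := hnil
  have hhK : h ∈ KP T P := IntermediateField.algebra_adjoin_le_adjoin _ _ hh
  obtain ⟨c₁, h1, h2, h3⟩ := nil_sub ((algebraMap (KV T S) K).comp (iPV hPS))
    ((BP T P).comap (KP T P).val).toSubring (BP_frac P) (BB 2 T).toSubring
    (ly (BB 2 T) y).toSubring (fun b hb => BV_le S (hBle hb)) (fun b hb => le_ly _ _ hb)
    (p_lauR H S hS y hy hy0 (iPV hPS) hR) (h := ⟨h, hhK⟩) hh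
    (fun h0 => hh0 (congrArg Subtype.val h0)) hΦ (le_ly _ _ hc) hc0 hn hψ
  exact ⟨c₁, h1, h2, h3⟩

end

end Pool.Agent.SuU
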