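import Pool.Agent.Lib.MP_305fdd_al.Su.U.Core

/-!
# MP_305fdd_al, surface groups, block U (helper50): relative properties of the Cartier operators

`ew φ i w z`: the value of the word `w = [(β₁, e₁), (β₂, e₂), …]` at `z`, that is
`φ^[e₁] (β₁ * φ^[e₂] (β₂ * … z))`; the coefficients `β` are in a field `K₁`, `i : K₁ →+* K`.

`PropS p i 𝒮 B`: for every Cartier operator `φ` and every `c ≠ 0` in `B` there are `b` in `B` and a
set `S` of words in the collection `𝒮` such that no word of `S` vanishes at `b * c`.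

`PropR p i B`: for all Cartier operators `φ` of `K`, `ψ` of `K₁` and every `c ≠ 0` in `B` there are `b` in
`B` and `η ≠ 0` in `K₁` such that `φ^[e] (β * (b * c)) = 0` implies `ψ^[e] (β * η) = 0` for all `β` in
`K₁`.
-/

set_option autoImplicit false
set_option linter.unusedSectionVars false

namespace Pool.Agent.SuU

open Pool.Agent.F2Ch Pool.Agent.F2RF Pool.Agent.FrD Pool.Agent.FrF
open scoped Classical

section words

variable {K₁ K L : Type} [Field K₁] [Field K] [Field L]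

/-- the value of a word -/
def ew (φ : K → K) (i : K₁ →+* K) : List (K₁ × ℕ) → K → K
  | [], z => z
  | (β, e) :: w, z => φ^[e] (i β * ew φ i w z)

@[simp] theorem ew_nil (φ : K → K) (i : K₁ →+* K) (z : K) : ew φ i [] z = z := rfl

@[simp] theorem ew_cons (φ : K → K) (i : K₁ →+* K) (β : K₁) (e : ℕ) (w : List (K₁ × ℕ)) (z : K) :
    ew φ i ((β, e) :: w) z = φ^[e] (i β * ew φ i w z) := rfl

theorem ew_conj (φ ψ : K → K) (i : K₁ →+* K) (g : K) (hg : g ≠ 0)
    (h : ∀ f, φ f = g⁻¹ * ψ (g * f)) (w : List (K₁ × ℕ)) (z : K) :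
    ew φ i w z = g⁻¹ * ew ψ i w (g * z) := by
  induction w with
  | nil => rw [ew_nil, ew_nil, inv_mul_cancel_left₀ hg]
  | cons a w ih =>
    obtain ⟨β, e⟩ := a
    rw [ew_cons, ew_cons, iter_conj φ ψ g hg h e, ih]
    congr 2
    rw [mul_left_comm, ← mul_assoc g, mul_inv_cancel₀ hg, one_mul]

theorem ew_map (j : K →+* L) (φ : K → K) (ψ : L → L) (i : K₁ →+* K)
    (h : ∀ z, ψ (j z) = j (φ z)) (w : List (K₁ × ℕ)) (z : K) :
    ew ψ (j.comp i) w (j z) = j (ew φ i w z) := by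
  induction w with
  | nil => rfl
  | cons a w ih =>
    obtain ⟨β, e⟩ := a
    rw [ew_cons, ew_cons, ih, RingHom.comp_apply, ← map_mul, iter_map j φ ψ h]

end words

/-- relative property for words -/
def PropS (p : ℕ) [NeZero p] {K₁ K : Type} [Field K₁] [Field K] (i : K₁ →+* K)
    (𝒮 : Set (Set (List (K₁ × ℕ)))) (B : Subring K) : Prop :=
  ∀ φ : K → K, LogTy p φ → ∀ c ∈ B, c ≠ 0 → ∃ b ∈ B, ∃ S ∈ 𝒮, ∀ w ∈ S, ew φ i w (b * c) ≠ 0

/-- relative property for two Cartier operators -/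
def PropR (p : ℕ) [NeZero p] {K₁ K : Type} [Field K₁] [Field K] (i : K₁ →+* K)
    (B : Subring K) : Prop :=
  ∀ φ : K → K, LogTy p φ → ∀ ψ : K₁ → K₁, LogTy p ψ → ∀ c ∈ B, c ≠ 0 →
    ∃ b ∈ B, ∃ η : K₁, η ≠ 0 ∧ ∀ (β : K₁) (e : ℕ), φ^[e] (i β * (b * c)) = 0 → ψ^[e] (β * η) = 0

/-- the collection of sets of words for `PropR` -/
def colR {K₁ : Type} [Field K₁] (ψ : K₁ → K₁) : Set (Set (List (K₁ × ℕ))) :=
  {S | ∃ η : K₁, η ≠ 0 ∧ S = {w | ∃ (β : K₁) (e : ℕ), w = [(β, e)] ∧ ψ^[e] (β * η) ≠ 0}}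

theorem propR_iff (p : ℕ) [NeZero p] {K₁ K : Type} [Field K₁] [Field K] (i : K₁ →+* K)
    (B : Subring K) : PropR p i B ↔ ∀ ψ : K₁ → K₁, LogTy p ψ → PropS p i (colR ψ) B := by
  constructor
  · intro h ψ hψ φ hφ c hc hc0
    obtain ⟨b, hb, η, hη, h1⟩ := h φ hφ ψ hψ c hc hc0
    refine ⟨b, hb, _, ⟨η, hη, rfl⟩, ?_⟩
    rintro w ⟨β, e, rfl, hw⟩ h0
    exact hw (h1 β e h0)
  · intro h φ hφ ψ hψ c hc hc0
    obtain ⟨b, hb, S, ⟨η, hη, rfl⟩, h1⟩ := h ψ hψ φ hφ c hc hc0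
    refine ⟨b, hb, η, hη, fun β e h0 => ?_⟩
    by_contra hcon
    exact h1 _ ⟨β, e, rfl, hcon⟩ h0

/-- STEP LEMMA for `PropS` (copy of `FrF.step`).  `F ⊆ E ⊆ L`, `F ⊆ K ⊆ L`; `L` is the field of fractions of the Laurent
polynomial ring `E[χ, χ⁻¹]`; `W` is a set of automorphisms of `L`, closed under inverses, with fixed
field `K`, which preserves `E` and acts on `χ` by monomials with coefficients in `E`; `L = K L²`,
`E = F E²`, `E ∩ K = F`.  The elements of `BK` are Laurent polynomials, and for every nonzero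
`c` in `BK` some product `b * c` with `b` in `BK` has a nonzero constant term.  Then `PropS` passes from `BF` to `BK`. -/
theorem stepS {K₁ F K E L : Type} [Field K₁] [Field F] [Field K] [Field E] [Field L]
    [CharP F 2] [CharP K 2] [CharP E 2] [CharP L 2]
    (iFE : F →+* E) (iE : E →+* L) (iFK : F →+* K) (iK : K →+* L)
    (hcomm : ∀ a, iE (iFE a) = iK (iFK a)) {m : ℕ} {χ : Fin m → L} (hL : Lau iE χ)
    (W : Set (L ≃+* L)) (hinv : ∀ w ∈ W, w.symm ∈ W)
    (hW1 : ∀ w ∈ W, ∀ z, w (iK z) = iK z)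
    (hW2 : ∀ z, (∀ w ∈ W, w z = z) → ∃ y, iK y = z)
    (hWE : ∀ w ∈ W, ∀ a, ∃ b, w (iE a) = iE b)
    (hWχ : ∀ w ∈ W, ∀ j, ∃ (c : E) (l : Fin m → ℤ), w (χ j) = iE c * mo χ l)
    (hEK : ∀ (a : E) (y : K), iE a = iK y → ∃ f, iFE f = a)
    (hspK : ∀ z, z ∈ Subring.closure (Set.range iK ∪ Set.range (fun y : L => y ^ 2)))
    (hspE : ∀ z, z ∈ Subring.closure (Set.range iFE ∪ Set.range (fun y : E => y ^ 2)))
    (hMB : ∃ (d : ℕ) (x : Fin d → F) (π : (Fin d → Fin 2) → F → F), MB 2 x π)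
    (BF : Subring F) (BK : Subring K) (hBF : ∀ b ∈ BF, iFK b ∈ BK)
    (hfracF : ∀ x : F, ∃ a ∈ BF, ∃ b ∈ BF, b ≠ 0 ∧ x * b = a)
    (hfracK : ∀ x : K, ∃ a ∈ BK, ∃ b ∈ BK, b ≠ 0 ∧ x * b = a)
    (hct : ∀ c ∈ BK, c ≠ 0 → ∃ b ∈ BK, ∃ P, ev iE χ P = iK (b * c) ∧ P 0 ≠ 0)
    (i₁ : K₁ →+* F) (𝒮 : Set (Set (List (K₁ × ℕ)))) (hQ : PropS 2 i₁ 𝒮 BF) :
    PropS 2 (iFK.comp i₁) 𝒮 BK := by
  intro φ hφ c hc hc0
  obtain ⟨dF, x, πF, hF⟩ := hMB
  obtain ⟨dK, tK, πK, gK, hK, hgK, hφK⟩ := hφ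
  -- the restrictions of the automorphisms to `E`
  have hweE : ∀ w ∈ W, ∃ we : E ≃+* E, ∀ a, w (iE a) = iE (we a) := by
    intro w hw
    obtain ⟨u, hu⟩ := exists_we w (hWE w hw)
    obtain ⟨v, hv⟩ := exists_we w.symm (hWE w.symm (hinv w hw))
    refine ⟨RingEquiv.ofRingHom u v ?_ ?_, hu⟩
    · ext a
      apply iE.injective
      rw [RingHom.comp_apply, ← hu, ← hv, RingEquiv.apply_symm_apply, RingHom.id_apply]
    · ext a
      apply iE.injective
      rw [RingHom.comp_apply, ← hv, ← hu, RingEquiv.symm_apply_apply, RingHom.id_apply]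
  -- the `2`-basis of `E`
  obtain ⟨πE, hE, hπE⟩ := ext_MB iFE x πF hF {v | ∃ w ∈ W, ∀ a, w (iE a) = iE (v a)}
    (by
      rintro v ⟨w, hw, hv⟩ z
      apply iE.injective
      rw [← hv, hcomm, hW1 w hw])
    (by
      intro z hz
      obtain ⟨y, hy⟩ := hW2 (iE z) (by
        intro w hw
        obtain ⟨v, hv⟩ := hweE w hw
        rw [hv, hz v ⟨w, hw, hv⟩])
      exact hEK z y hy.symm) hspE
  -- the `2`-basis `(x, χ)` of `L`
  obtain ⟨π', hM, hD⟩ := lau_MB hE iE hL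
  -- the `2`-basis `t` of `L`
  obtain ⟨πL, hT, hπL⟩ := ext_MB iK tK πK hK W hW1 hW2 hspK
  -- comparison
  have hlog : LogTy 2 (πL j0) := ⟨dK, _, πL, 1, hT, one_ne_zero, fun f => by simp⟩
  obtain ⟨g, hg, hgg⟩ := w4 2 L (πL j0) hlog _ _ π' hM
  have hwg : ∀ w ∈ W, w g = g := by
    intro w hw
    obtain ⟨v, hv⟩ := hweE w hw
    refine g_fixed hM hT w ?_ ?_ g hg hgg
    · intro z
      refine pj_comm hE hL hM hD w (v : E →+* E) hv ?_ (hWχ w hw) (hWE _ (hinv w hw))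
        (hWχ _ (hinv w hw)) z
      intro j
      apply iE.injective
      show iE (v (iFE (x j))) = _
      rw [← hv, hcomm, hW1 w hw]
    · intro z
      have h1 := pb_comm hT (w : L →+* L) (fun j => hW1 w hw (tK j)) j0 z
      exact h1
  obtain ⟨g0, hg0⟩ := hW2 g hwg
  -- numerator and denominator
  obtain ⟨g1, hg1, g2, hg2, hg20, hg12⟩ := hfracK (g0 * gK)
  have hg00 : g0 ≠ 0 := by
    rintro rfl
    rw [map_zero] at hg0
    exact hg hg0.symm
  have hg10 : g1 ≠ 0 := by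
    rw [← hg12]
    exact mul_ne_zero (mul_ne_zero hg00 hgK) hg20
  obtain ⟨b, hb, P, hP, hP0⟩ := hct (g1 * g2 * c) (BK.mul_mem (BK.mul_mem hg1 hg2) hc)
    (mul_ne_zero (mul_ne_zero hg10 hg20) hc0)
  -- the constant term is in `F`
  obtain ⟨a, ha⟩ : ∃ a, iFE a = P 0 := by
    obtain ⟨y, hy⟩ := hW2 (iE (P 0)) (by
      intro w hw
      obtain ⟨v, hv⟩ := hweE w hw
      have h1 := const_w hL w (v : E →+* E) hv (hWχ w hw) (hWE _ (hinv w hw)) P P
        (by rw [hP, hW1 w hw])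
      rw [hv]
      exact congrArg iE h1.symm)
    exact hEK _ y hy.symm
  have ha0 : a ≠ 0 := by
    rintro rfl
    rw [map_zero] at ha
    exact hP0 ha.symm
  obtain ⟨a1, ha1, a2, ha2, ha20, haa⟩ := hfracF a
  have ha10 : a1 ≠ 0 := by
    rw [← haa]
    exact mul_ne_zero ha0 ha20
  obtain ⟨b', hb', S, hS, hb'e⟩ := hQ (πF j0) ⟨dF, x, πF, 1, hF, one_ne_zero, fun f => by simp⟩
    (a1 * a2) (BF.mul_mem ha1 ha2) (mul_ne_zero ha10 ha20)
  refine ⟨b * g2 ^ 2 * iFK (b' * a2 ^ 2), BK.mul_mem (BK.mul_mem hb (BK.pow_mem hg2 2))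
    (hBF _ (BF.mul_mem hb' (BF.pow_mem ha2 2))), S, hS, ?_⟩
  intro w hw
  rw [ew_conj φ (πK j0) (iFK.comp i₁) gK hgK hφK w]
  refine mul_ne_zero (inv_ne_zero hgK) ?_
  intro h0
  have h1 := ew_map iK (πK j0) (πL j0) (iFK.comp i₁) (hπL j0) w
    (gK * (b * g2 ^ 2 * iFK (b' * a2 ^ 2) * c))
  rw [h0, map_zero, ew_conj (πL j0) (π' j0) _ g hg hgg w] at h1
  have h2 : g * iK (gK * (b * g2 ^ 2 * iFK (b' * a2 ^ 2) * c)) =
      ev iE χ (iFE (b' * a2 ^ 2) • P) := by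
    rw [ev_smul, hP, hcomm, ← hg0, ← map_mul, ← map_mul]
    congr 1
    rw [← hg12]
    ring
  rw [h2] at h1
  have key : ∀ (w : List (K₁ × ℕ)) (Q : (Fin m → ℤ) →₀ E), ∃ R,
      ew (π' j0) (iK.comp (iFK.comp i₁)) w (ev iE χ Q) = ev iE χ R ∧
      R 0 = ew (πE j0) (iFE.comp i₁) w (Q 0) := by
    intro w Q
    induction w with
    | nil => exact ⟨Q, rfl, rfl⟩
    | cons a w ih =>
      obtain ⟨β, e⟩ := a
      obtain ⟨R, hR, hR0⟩ := ih
      obtain ⟨R', hR', hR'0⟩ := pj_iter hE hD e (iFE (i₁ β) • R)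
      refine ⟨R', ?_, ?_⟩
      · rw [ew_cons, hR, ← hR', ev_smul, RingHom.comp_apply, RingHom.comp_apply, ← hcomm]
      · rw [ew_cons, hR'0, Finsupp.smul_apply, smul_eq_mul, hR0, RingHom.comp_apply]
  obtain ⟨R, hR, hR0⟩ := key w (iFE (b' * a2 ^ 2) • P)
  rw [hR] at h1
  have h3 : ev iE χ R = 0 := (mul_eq_zero.1 h1).resolve_left (inv_ne_zero hg)
  have h4 := hL.inj R h3
  rw [Finsupp.smul_apply, smul_eq_mul, ← ha, ← map_mul] at hR0
  have h5 : b' * a2 ^ 2 * a = b' * (a1 * a2) := by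
    rw [← haa]
    ring
  rw [h5, ew_map iFE (πF j0) (πE j0) i₁ (hπE j0) w, h4, Finsupp.zero_apply] at hR0
  have h6 : ew (πF j0) i₁ w (b' * (a1 * a2)) = 0 := by
    apply iFE.injective
    rw [← hR0, map_zero]
  exact hb'e w hw h6

/-- LEMMA R for `PropS` (copy of `FrF.lemR`).  `E / F` finite Galois, `L` = fractions of the group ring `E[Λ]`; every
automorphism of `E / F` extends to an automorphism of `L / K` acting monomially on `χ`; the
elements of `BK` are Laurent polynomials and the `E`-span of `BK` contains all monomials. -/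
theorem lemRS {K₁ F E K L Λ : Type} [Field K₁] [Field F] [Field E] [Field K] [Field L]
    [CharP F 2] [CharP E 2] [CharP K 2] [CharP L 2] [Algebra F E] [FiniteDimensional F E]
    [IsGalois F E] [AddCommGroup Λ] [Module.Free ℤ Λ] [Module.Finite ℤ Λ]
    (iE : E →+* L) (iFK : F →+* K) (iK : K →+* L)
    (hcomm : ∀ a, iE (algebraMap F E a) = iK (iFK a))
    (χ : Λ → L) (hL : LauG iE χ)
    (hw : ∀ w : E ≃ₐ[F] E, ∃ u : L ≃+* L, (∀ a, u (iE a) = iE (w a)) ∧ (∀ z, u (iK z) = iK z) ∧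
      ∀ l, ∃ (c : E) (l' : Λ), u (χ l) = iE c * χ l')
    (hMB : ∃ (d : ℕ) (x : Fin d → F) (π : (Fin d → Fin 2) → F → F), MB 2 x π)
    (BF : Subring F) (BK : Subring K) (hBF : ∀ b ∈ BF, iFK b ∈ BK)
    (hfracF : ∀ x : F, ∃ a ∈ BF, ∃ b ∈ BF, b ≠ 0 ∧ x * b = a)
    (hfracK : ∀ x : K, ∃ a ∈ BK, ∃ b ∈ BK, b ≠ 0 ∧ x * b = a)
    (hlau : ∀ b ∈ BK, ∃ P, evG iE χ P = iK b)
    (hspan : ∀ l, ∃ (n : ℕ) (e : Fin n → E) (b : Fin n → K), (∀ j, b j ∈ BK) ∧
      χ l = ∑ j, iE (e j) * iK (b j))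
    (i₁ : K₁ →+* F) (𝒮 : Set (Set (List (K₁ × ℕ)))) (hQ : PropS 2 i₁ 𝒮 BF) :
    PropS 2 (iFK.comp i₁) 𝒮 BK := by
  -- `L` is generated by `E` and `K`
  have hcl : ∀ z : L, z ∈ Subring.closure (Set.range iE ∪ Set.range iK) := by
    intro z
    apply closure_top iE iK
    · intro a
      obtain ⟨P, hP, hP0⟩ := Algebra.IsAlgebraic.isAlgebraic (R := F) a
      refine ⟨P.map iFK, (Polynomial.map_ne_zero_iff iFK.injective).2 hP, ?_⟩
      rw [Polynomial.eval₂_map]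
      have h1 : iK.comp iFK = iE.comp (algebraMap F E) := by
        ext x
        exact (hcomm x).symm
      rw [h1, ← Polynomial.hom_eval₂]
      have h2 : Polynomial.eval₂ (algebraMap F E) a P = 0 := hP0
      rw [h2, map_zero]
    · intro M hME hMK z
      have hχ : ∀ l, χ l ∈ M := by
        intro l
        obtain ⟨n, e, b, _, hb⟩ := hspan l
        rw [hb]
        exact sum_mem fun j _ => mul_mem (hME _) (hMK _)
      have hev : ∀ P : Λ →₀ E, evG iE χ P ∈ M := by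
        intro P
        exact sum_mem fun l _ => mul_mem (hME _) (hχ _)
      obtain ⟨P, Q, hQ0, hz⟩ := hL.frac z
      have h1 : z = evG iE χ P / evG iE χ Q := by
        rw [← hz]
        field_simp
      rw [h1]
      exact div_mem (hev P) (hev Q)
  choose u huE huK huχ using hw
  obtain ⟨m, ⟨b⟩⟩ : ∃ m : ℕ, Nonempty (Module.Basis (Fin m) ℤ Λ) :=
    ⟨_, ⟨Module.finBasis ℤ Λ⟩⟩
  -- the set of automorphisms
  set W : Set (L ≃+* L) := {v | (∀ z, v (iK z) = iK z) ∧ ∃ w : E ≃ₐ[F] E, ∀ a, v (iE a) = iE (w a)}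
    with hWdef
  have huW : ∀ w, u w ∈ W := fun w => ⟨huK w, w, huE w⟩
  have huniq : ∀ v ∈ W, ∃ w, v = u w := by
    rintro v ⟨hvK, w, hvE⟩
    refine ⟨w, ?_⟩
    ext z
    have h1 : Set.EqOn (v : L →+* L) (u w : L →+* L) (Set.range iE ∪ Set.range iK) := by
      rintro _ (⟨a, rfl⟩ | ⟨y, rfl⟩)
      · show v (iE a) = u w (iE a)
        rw [hvE, huE]
      · show v (iK y) = u w (iK y)
        rw [hvK, huK]
    exact RingHom.eqOn_set_closure h1 (hcl z)
  have hfixE : ∀ a : E, (∀ w : E ≃ₐ[F] E, w a = a) → ∃ f, algebraMap F E f = a := by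
    intro a ha
    have h1 := (IsGalois.mem_bot_iff_fixed a).2 ha
    rw [IntermediateField.mem_bot] at h1
    exact h1
  -- trace
  obtain ⟨θ, hθ⟩ := Algebra.trace_surjective F E 1
  have htr : ∀ z : L, ∀ a : E, ∃ y, ∑ w : E ≃ₐ[F] E, u w (z * iE a) = iK y := by
    intro z
    refine closure_prod iE iK (fun z => ∀ a : E, ∃ y, ∑ w : E ≃ₐ[F] E, u w (z * iE a) = iK y)
      ?_ ?_ ?_ ?_ z (hcl z)
    · intro x y hx hy a
      obtain ⟨x', hx'⟩ := hx a
      obtain ⟨y', hy'⟩ := hy a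
      refine ⟨x' + y', ?_⟩
      rw [map_add, ← hx', ← hy', ← Finset.sum_add_distrib]
      refine Finset.sum_congr rfl fun w _ => ?_
      rw [add_mul, map_add]
    · intro x hx a
      obtain ⟨x', hx'⟩ := hx a
      refine ⟨-x', ?_⟩
      rw [map_neg, ← hx', ← Finset.sum_neg_distrib]
      refine Finset.sum_congr rfl fun w _ => ?_
      rw [neg_mul, map_neg]
    · intro a
      refine ⟨0, ?_⟩
      rw [map_zero]
      refine Finset.sum_eq_zero fun w _ => ?_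
      rw [zero_mul, map_zero]
    · intro c y a
      refine ⟨y * iFK (Algebra.trace F E (c * a)), ?_⟩
      rw [map_mul, ← hcomm, trace_eq_sum_automorphisms, map_sum, Finset.mul_sum]
      refine Finset.sum_congr rfl fun w _ => ?_
      rw [map_mul, map_mul, huE, huK, huE, map_mul, map_mul]
      ring
  have hW2 : ∀ z, (∀ w ∈ W, w z = z) → ∃ y, iK y = z := by
    intro z hz
    obtain ⟨y, hy⟩ := htr z θ
    refine ⟨y, ?_⟩
    rw [← hy]
    have h1 : ∀ w : E ≃ₐ[F] E, u w (z * iE θ) = z * iE (w θ) := by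
      intro w
      rw [map_mul, huE, hz _ (huW w)]
    rw [Finset.sum_congr rfl fun w _ => h1 w, ← Finset.mul_sum, ← map_sum,
      ← trace_eq_sum_automorphisms, hθ, map_one, map_one, mul_one]
  refine stepS (algebraMap F E) iE iFK iK hcomm (hL.toLau b) W ?_ ?_ hW2 ?_ ?_ ?_ ?_ ?_ hMB BF BK
    hBF hfracF hfracK ?_ i₁ 𝒮 hQ
  · rintro v ⟨hvK, w, hvE⟩
    refine ⟨fun z => ?_, w.symm, fun a => ?_⟩
    · rw [RingEquiv.symm_apply_eq, hvK]
    · rw [RingEquiv.symm_apply_eq, hvE, AlgEquiv.apply_symm_apply]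
  · exact fun v hv => hv.1
  · rintro v ⟨_, w, hvE⟩ a
    exact ⟨w a, hvE a⟩
  · intro v hv j
    obtain ⟨w, rfl⟩ := huniq v hv
    obtain ⟨c, l', hc⟩ := huχ w (b j)
    exact ⟨c, b.equivFun l', by rw [hc, hL.mo b]⟩
  · intro a y hay
    apply hfixE
    intro w
    apply iE.injective
    rw [← huE, hay, huK]
  · intro z
    have h1 : Subring.closure (Set.range iE ∪ Set.range iK) ≤
        Subring.closure (Set.range iK ∪ Set.range (fun y : L => y ^ 2)) := by
      rw [Subring.closure_le]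
      rintro _ (⟨a, rfl⟩ | ⟨y, rfl⟩)
      · have h2 := closure_sq (F := F) a
        have h3 : iE a ∈ (Subring.closure (Set.range (algebraMap F E) ∪
            Set.range (fun y : E => y ^ 2))).map iE := ⟨a, h2, rfl⟩
        rw [RingHom.map_closure] at h3
        refine Subring.closure_mono ?_ h3
        rintro _ ⟨_, ⟨f, rfl⟩ | ⟨y, rfl⟩, rfl⟩
        · left
          exact ⟨iFK f, (hcomm f).symm⟩
        · right
          exact ⟨iE y, (map_pow iE y 2).symm⟩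
      · exact Subring.subset_closure (Or.inl ⟨y, rfl⟩)
    exact h1 (hcl z)
  · exact fun z => closure_sq (F := F) z
  · -- constant terms
    intro c hc hc0
    obtain ⟨P, hP⟩ := hlau c hc
    have hP0 : P ≠ 0 := by
      rintro rfl
      rw [evG_zero] at hP
      exact hc0 (iK.injective (by rw [← hP, map_zero]))
    obtain ⟨l, hl⟩ := Finsupp.ne_iff.1 hP0
    obtain ⟨n, e, d, hd, hχ⟩ := hspan (-l)
    choose R hR using fun j => hlau (d j * c) (BK.mul_mem (hd j) hc)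
    have h1 : evG iE χ (P.mapDomain fun n => n + -l) = evG iE χ (∑ j, e j • R j) := by
      rw [evG_shift hL, hP, hχ, evG_sum, Finset.mul_sum]
      refine Finset.sum_congr rfl fun j _ => ?_
      rw [evG_smul, hR, map_mul]
      ring
    have h2 := hL.inj' h1
    have h3 : (P.mapDomain fun n => n + -l) 0 = P l := by
      have h4 : (0 : Λ) = (fun n => n + -l) l := by simp
      rw [h4, Finsupp.mapDomain_apply (fun x y hxy => by simpa using hxy)]
    rw [h2, Finsupp.finsetSum_apply] at h3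
    obtain ⟨j, _, hj⟩ : ∃ j ∈ Finset.univ, (e j • R j) 0 ≠ 0 := by
      apply Finset.exists_ne_zero_of_sum_ne_zero
      rw [h3]
      exact hl
    refine ⟨d j, hd j, (R j).mapDomain b.equivFun, ?_, ?_⟩
    · rw [hL.ev b, hR]
    · rw [mapDomain_zero_apply]
      intro h0
      apply hj
      rw [Finsupp.smul_apply, h0, smul_zero]

section
open Matrix Pool.Agent.FrL

variable {Kf K E ι : Type} [Field Kf] [Field K] [Field E] [CharP Kf 2] [CharP K 2] [CharP E 2]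
  [Algebra Kf E] [FiniteDimensional Kf E] [IsGalois Kf E] [Fintype ι]

/-- THE CORE for `PropS` (copy of `FrL.core`). -/
theorem coreS {K₁ : Type} [Field K₁] (L : AddSubgroup (ι → ℤ)) (iFK : Kf →+* K) (B : Subring K)
    (hB : ∀ x : K, ∃ a ∈ B, ∃ b ∈ B, b ≠ 0 ∧ x * b = a)
    (φ : B →+* LR E ι) (hφ : Function.Injective φ)
    (hsupp : ∀ b n, (φ b).coeff n ≠ 0 → n ∈ L)
    (hspan : ∀ n ∈ L, AddMonoidAlgebra.single n (1 : E) ∈ Submodule.span E (Set.range φ))
    (hgal : ∀ w : E ≃ₐ[Kf] E, ∃ (Ω : Type) (_ : Field Ω) (i : E →+* Ω) (κ : ι → Ωˣ) (ε : ι → ℤˣ),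
      ∀ b, th (i.comp (w : E →+* E)) 1 1 (φ b) = th i κ ε (φ b))
    (hgen : ∀ M : Subfield Kf, (∀ k, (∃ h : iFK k ∈ B, φ ⟨iFK k, h⟩ =
      AddMonoidAlgebra.single 0 (algebraMap Kf E k)) → k ∈ M) → ∀ k, k ∈ M)
    (hMB : ∃ (d : ℕ) (x : Fin d → Kf) (π : (Fin d → Fin 2) → Kf → Kf), MB 2 x π)
    (BF : Subring Kf) (BK : Subring K) (hBF : ∀ b ∈ BF, iFK b ∈ BK)
    (hfracF : ∀ x : Kf, ∃ a ∈ BF, ∃ b ∈ BF, b ≠ 0 ∧ x * b = a)
    (hBK : ∀ b ∈ B, b ∈ BK) (hBK' : ∀ b ∈ BK, ∃ k : Kf, k ≠ 0 ∧ iFK k * b ∈ B)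
    (i₁ : K₁ →+* Kf) (𝒮 : Set (Set (List (K₁ × ℕ)))) (hQ : PropS 2 i₁ 𝒮 BF) :
    PropS 2 (iFK.comp i₁) 𝒮 BK := by
  classical
  have h1 : ∀ b : B, ∃ g, jL E L g = φ b := fun b => mem_jL L _ (hsupp b)
  choose φ' hφ' using h1
  let φL : B →+* RL E L :=
    { toFun := φ'
      map_one' := jL_inj L (by rw [hφ', map_one, map_one])
      map_mul' := fun x y => jL_inj L (by rw [hφ', map_mul, map_mul, hφ', hφ'])
      map_zero' := jL_inj L (by rw [hφ', map_zero, map_zero])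
      map_add' := fun x y => jL_inj L (by rw [hφ', map_add, map_add, hφ', hφ']) }
  have hφL : ∀ b, jL E L (φL b) = φ b := hφ'
  have hφLi : Function.Injective φL := by
    intro x y h
    apply hφ
    rw [← hφL, ← hφL, h]
  have hfr : IsFractionRing B K := by
    refine IsFractionRing.of_field B K fun x => ?_
    obtain ⟨a, ha, b, hb, hb0, h⟩ := hB x
    refine ⟨⟨a, ha⟩, ⟨b, hb⟩, ?_⟩
    change x = a / b
    rw [eq_div_iff hb0, h]
  have hψ : Function.Injective ((algebraMap (RL E L) (KL E L)).comp φL) := by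
    rw [RingHom.coe_comp]
    exact (IsFractionRing.injective _ _).comp hφLi
  let iK : K →+* KL E L := IsFractionRing.lift hψ
  have hiK : ∀ b : B, iK (b : K) = algebraMap (RL E L) (KL E L) (φL b) :=
    fun b => IsFractionRing.lift_algebraMap hψ b
  have : CharP (KL E L) 2 := charP_of_injective_ringHom (iE (E := E) L).injective 2
  have hcomm : ∀ a, iE L (algebraMap Kf E a) = iK (iFK a) := by
    let M : Subfield Kf := RingHom.eqLocusField ((iE L).comp (algebraMap Kf E)) (iK.comp iFK)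
    intro a
    have h2 : a ∈ M := by
      refine hgen M ?_ a
      rintro k ⟨h, hk⟩
      change iE L (algebraMap Kf E k) = iK (iFK k)
      have h3 := hiK ⟨iFK k, h⟩
      rw [iE_apply]
      refine Eq.trans ?_ h3.symm
      congr 1
      apply jL_inj L
      rw [hφL, hk, jL_single]
      rfl
    exact h2
  refine lemRS (iE L) iFK iK hcomm (chi L) (lauG L) ?_ hMB BF BK hBF hfracF ?_ ?_ ?_ i₁ 𝒮 hQ
  · intro w
    obtain ⟨u, hu1, hu2, hu3⟩ := gal_equiv φ L hsupp hspan w hgal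
    refine ⟨IsFractionRing.ringEquivOfRingEquiv u, ?_, ?_, ?_⟩
    · intro a
      rw [iE_apply, iE_apply, IsFractionRing.ringEquivOfRingEquiv_algebraMap, hu1]
    · intro z
      have h2 : ((IsFractionRing.ringEquivOfRingEquiv u : KL E L ≃+* KL E L) :
          KL E L →+* KL E L).comp iK = iK := by
        apply IsFractionRing.ringHom_ext (A := B)
        intro b
        change IsFractionRing.ringEquivOfRingEquiv u (iK (b : K)) = iK (b : K)
        rw [hiK, IsFractionRing.ringEquivOfRingEquiv_algebraMap, hu2 b _ (hφL b)]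
      exact congrFun (congrArg DFunLike.coe h2) z
    · intro l
      obtain ⟨c, l', h⟩ := hu3 l
      refine ⟨c, l', ?_⟩
      rw [chi, IsFractionRing.ringEquivOfRingEquiv_algebraMap, h, iE_apply, chi, ← map_mul,
        AddMonoidAlgebra.single_mul_single, zero_add, mul_one]
  · intro x
    obtain ⟨a, ha, b, hb, h⟩ := hB x
    exact ⟨a, hBK a ha, b, hBK b hb, h⟩
  · intro b hb
    obtain ⟨k, hk0, hk⟩ := hBK' b hb
    refine ⟨(algebraMap Kf E k)⁻¹ • (φL ⟨_, hk⟩).coeff, ?_⟩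
    have hk1 : iK (iFK k) ≠ 0 := by
      rw [Ne, map_eq_zero, map_eq_zero]
      exact hk0
    rw [evG_smul, evG_eq, ← hiK ⟨_, hk⟩, map_inv₀, hcomm]
    change (iK (iFK k))⁻¹ * iK (iFK k * b) = iK b
    rw [map_mul, inv_mul_cancel_left₀ hk1]
  · intro l
    obtain ⟨c, hc⟩ := (Finsupp.mem_span_range_iff_exists_finsupp).1 (hspan l l.2)
    let e := c.support.equivFin
    refine ⟨c.support.card, fun j => c (e.symm j : B), fun j => ((e.symm j : B) : K),
      fun j => hBK _ (e.symm j : B).2, ?_⟩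
    have h2 : AddMonoidAlgebra.single l (1 : E) =
        ∑ j : Fin c.support.card, AddMonoidAlgebra.single 0 (c (e.symm j : B)) *
          φL (e.symm j : B) := by
      apply jL_inj L
      rw [jL_single, ← hc, map_sum, Finsupp.sum]
      rw [← Finset.sum_coe_sort, ← e.symm.sum_comp]
      refine Finset.sum_congr rfl fun j _ => ?_
      rw [map_mul, hφL, jL_single]
      exact Algebra.smul_def _ _
    rw [chi, h2, map_sum]
    refine Finset.sum_congr rfl fun j _ => ?_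
    rw [map_mul, hiK, iE_apply]

end

end Pool.Agent.SuU
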