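import Pool.Agent.Lib.MP_305fdd_al.Su.U.Comp

/-!
# MP_305fdd_al, surface groups, block U (helper50): the composite of balanced valuation rings
-/

set_option autoImplicit false
set_option linter.unusedSectionVars false

namespace Pool.Agent.SuU

open Pool.Agent.FrD Polynomial IsLocalRing
open scoped Classical

section
variable {k K₁ K : Type} [Field k] [Field K₁] [Field K] [Algebra k K₁] [Algebra k K]
  [Algebra K₁ K] [IsScalarTower k K₁ K]

/-- common denominators -/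
theorem clr (B₁ : Subalgebra k K₁) (hfrac₁ : ∀ x : K₁, ∃ a ∈ B₁, ∃ b ∈ B₁, b ≠ 0 ∧ x * b = a)
    (S : Finset ℕ) (a : ℕ → K₁) : ∃ s ∈ B₁, s ≠ 0 ∧ ∀ n ∈ S, s * a n ∈ B₁ := by
  induction S using Finset.induction_on with
  | empty => exact ⟨1, B₁.one_mem, one_ne_zero, by simp⟩
  | insert m S _ ih =>
    obtain ⟨s, hs, hs0, h⟩ := ih
    obtain ⟨x, hx, y, hy, hy0, hxy⟩ := hfrac₁ (a m)
    refine ⟨s * y, B₁.mul_mem hs hy, mul_ne_zero hs0 hy0, ?_⟩
    intro n hn
    rcases Finset.mem_insert.1 hn with rfl | hn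
    · have : s * y * a n = s * x := by
        rw [← hxy]
        ring
      rw [this]
      exact B₁.mul_mem hs hx
    · have : s * y * a n = y * (s * a n) := by ring
      rw [this]
      exact B₁.mul_mem hy (h n hn)

/-- denominators of the elements of `K₁ B` -/
theorem clr_adjoin (B₁ : Subalgebra k K₁)
    (hfrac₁ : ∀ x : K₁, ∃ a ∈ B₁, ∃ b ∈ B₁, b ≠ 0 ∧ x * b = a) (B : Subalgebra k K)
    (hB : ∀ b ∈ B₁, algebraMap K₁ K b ∈ B) {x : K} (hx : x ∈ Algebra.adjoin K₁ (B : Set K)) :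
    ∃ s ∈ B₁, s ≠ 0 ∧ algebraMap K₁ K s * x ∈ B := by
  induction hx using Algebra.adjoin_induction with
  | mem x hx => exact ⟨1, B₁.one_mem, one_ne_zero, by rw [map_one, one_mul]; exact hx⟩
  | algebraMap r =>
    obtain ⟨a, ha, b, hb, hb0, h⟩ := hfrac₁ r
    refine ⟨b, hb, hb0, ?_⟩
    rw [← map_mul, mul_comm, h]
    exact hB _ ha
  | add x y _ _ hx hy =>
    obtain ⟨s, hs, hs0, h⟩ := hx
    obtain ⟨t, ht, ht0, h'⟩ := hy
    refine ⟨s * t, B₁.mul_mem hs ht, mul_ne_zero hs0 ht0, ?_⟩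
    have : algebraMap K₁ K (s * t) * (x + y) =
        algebraMap K₁ K t * (algebraMap K₁ K s * x) +
          algebraMap K₁ K s * (algebraMap K₁ K t * y) := by
      rw [map_mul]
      ring
    rw [this]
    exact B.add_mem (B.mul_mem (hB _ ht) h) (B.mul_mem (hB _ hs) h')
  | mul x y _ _ hx hy =>
    obtain ⟨s, hs, hs0, h⟩ := hx
    obtain ⟨t, ht, ht0, h'⟩ := hy
    refine ⟨s * t, B₁.mul_mem hs ht, mul_ne_zero hs0 ht0, ?_⟩
    have : algebraMap K₁ K (s * t) * (x * y) =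
        (algebraMap K₁ K s * x) * (algebraMap K₁ K t * y) := by
      rw [map_mul]
      ring
    rw [this]
    exact B.mul_mem h h'

theorem trdeg_add' {d₁ d₂ : ℕ} {f₁ : Fin d₁ → K₁} {f₂ : Fin d₂ → K}
    (h₁ : IsTranscendenceBasis k f₁) (h₂ : IsTranscendenceBasis K₁ f₂) :
    Algebra.trdeg k K = ((d₂ + d₁ : ℕ) : Cardinal) := by
  have e1 := h₁.cardinalMk_eq_trdeg
  have e2 := h₂.cardinalMk_eq_trdeg
  rw [Cardinal.mk_fin] at e1 e2
  rw [← trdeg_add_eq k K₁, ← e1, ← e2]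
  push_cast
  exact add_comm _ _

/-- an annihilating polynomial with coefficients in `B₁` and nonzero constant term -/
theorem ann (B₁ : Subalgebra k K₁) (hfrac₁ : ∀ x : K₁, ∃ a ∈ B₁, ∃ b ∈ B₁, b ≠ 0 ∧ x * b = a)
    {κ : Type} [Field κ] (i : K₁ →+* κ) {r : κ} (hr : r ≠ 0) (P : K₁[X]) (hP : P ≠ 0)
    (hPr : P.eval₂ i r = 0) :
    ∃ Q : K₁[X], Q.coeff 0 ≠ 0 ∧ (∀ n, Q.coeff n ∈ B₁) ∧ Q.eval₂ i r = 0 := by
  have key : ∀ n : ℕ, ∀ P : K₁[X], P.natDegree ≤ n → P ≠ 0 → P.eval₂ i r = 0 →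
      ∃ Q : K₁[X], Q.coeff 0 ≠ 0 ∧ Q.eval₂ i r = 0 := by
    intro n
    induction n with
    | zero =>
      intro P hd h0 h
      refine ⟨P, ?_, h⟩
      intro hc
      apply h0
      rw [eq_C_of_natDegree_le_zero hd, hc, C_0]
    | succ n ih =>
      intro P hd h0 h
      by_cases hc : P.coeff 0 = 0
      · have h1 := divX_mul_X_add P
        rw [hc, C_0, add_zero] at h1
        refine ih P.divX ?_ ?_ ?_
        · rw [natDegree_divX_eq_natDegree_tsub_one]
          omega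
        · intro h2
          rw [h2, zero_mul] at h1
          exact h0 h1.symm
        · rw [← h1, eval₂_mul, eval₂_X] at h
          exact (mul_eq_zero.1 h).resolve_right hr
      · exact ⟨P, hc, h⟩
  obtain ⟨Q, hQ0, hQ⟩ := key P.natDegree P le_rfl hP hPr
  obtain ⟨s, hs, hs0, h⟩ := clr B₁ hfrac₁ Q.support Q.coeff
  refine ⟨C s * Q, ?_, ?_, ?_⟩
  · rw [coeff_C_mul]
    exact mul_ne_zero hs0 hQ0
  · intro n
    rw [coeff_C_mul]
    by_cases hn : Q.coeff n = 0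
    · rw [hn, mul_zero]
      exact B₁.zero_mem
    · exact h n (mem_support_iff.2 hn)
  · rw [eval₂_mul, hQ, mul_zero]

/-- COMPOSITION: balanced valuation rings `O₁` of `K₁ / k` and `O₂` of `K / K₁` give a balanced
valuation ring of `K / k` which induces `O₁` on `K₁`. -/
theorem comp_bal (B₁ : Subalgebra k K₁)
    (hfrac₁ : ∀ x : K₁, ∃ a ∈ B₁, ∃ b ∈ B₁, b ≠ 0 ∧ x * b = a) (B : Subalgebra k K)
    (hB : ∀ b ∈ B₁, algebraMap K₁ K b ∈ B) {O₁ : ValuationSubring K₁} {d₁ : ℕ}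
    {f₁ : Fin d₁ → K₁} (h₁ : Bal k B₁ O₁ f₁) {O₂ : ValuationSubring K} {d₂ : ℕ}
    {f₂ : Fin d₂ → K} (h₂ : Bal K₁ (Algebra.adjoin K₁ (B : Set K)) O₂ f₂) :
    ∃ (O : ValuationSubring K) (d : ℕ) (f : Fin d → K), Bal k B O f ∧
      ∀ x : K₁, x ≠ 0 → (O.valuation (algebraMap K₁ K x) = 1 ↔ O₁.valuation x = 1) := by
  let i : K₁ →+* ResidueField O₂ :=
    (residue O₂).comp ((algebraMap K₁ K).codRestrict O₂.toSubring h₂.triv)
  have hi : ∀ (x : K₁) (h : algebraMap K₁ K x ∈ O₂), rs O₂ (algebraMap K₁ K x) h = i x :=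
    fun x h => rfl
  obtain ⟨W, hW⟩ := exists_ext i O₁
  -- residues are algebraic over `K₁`
  have halg : ∀ (x : K) (h : x ∈ O₂), ∃ P : K₁[X], P ≠ 0 ∧ P.eval₂ i (rs O₂ x h) = 0 := by
    intro x h
    obtain ⟨P, hP, hPx⟩ := h₂.res x h
    refine ⟨P, hP, ?_⟩
    have h1 : (P.eval₂ ((algebraMap K₁ K).codRestrict O₂.toSubring h₂.triv) (⟨x, h⟩ : O₂) : O₂) ∈
        maximalIdeal O₂ := by
      rw [O₂.valuation_lt_one_iff]
      have h2 : ((P.eval₂ ((algebraMap K₁ K).codRestrict O₂.toSubring h₂.triv)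
          (⟨x, h⟩ : O₂) : O₂) : K) = aeval x P := by
        change O₂.subtype (P.eval₂ _ (⟨x, h⟩ : O₂)) = _
        rw [hom_eval₂]
        rfl
      rw [h2]
      exact hPx
    rw [← residue_eq_zero_iff, hom_eval₂] at h1
    exact h1
  -- values of elements of `K₁`
  have hK₁ : ∀ x : K₁, x ≠ 0 → O₂.valuation (algebraMap K₁ K x) = 1 := by
    intro x hx
    have h0 : algebraMap K₁ K x ≠ 0 := by
      rw [Ne, map_eq_zero]
      exact hx
    rw [val_one_iff O₂ h0, ← map_inv₀]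
    exact ⟨h₂.triv x, h₂.triv x⁻¹⟩
  have hWone : ∀ x : K₁, x ≠ 0 → (W.valuation (i x) = 1 ↔ O₁.valuation x = 1) := by
    intro x hx
    have h0 : i x ≠ 0 := by
      rw [Ne, map_eq_zero]
      exact hx
    rw [val_one_iff W h0, val_one_iff O₁ hx, ← map_inv₀, hW, hW]
  have hOone : ∀ x : K₁, x ≠ 0 →
      ((comp O₂ W).valuation (algebraMap K₁ K x) = 1 ↔ O₁.valuation x = 1) := by
    intro x hx
    have h0 : algebraMap K₁ K x ≠ 0 := by
      rw [Ne, map_eq_zero]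
      exact hx
    rw [comp_one h0, ← hWone x hx]
    constructor
    · rintro ⟨_, h⟩
      exact h (h₂.triv x)
    · intro h
      exact ⟨hK₁ x hx, fun _ => h⟩
  -- units of the composite, through the residue
  have hunit : ∀ x : K, x ≠ 0 → O₂.valuation x = 1 → ∀ h : x ∈ O₂, W.valuation (rs O₂ x h) = 1 →
      (comp O₂ W).valuation x = 1 := fun x hx h2 h hw => (comp_one hx).2 ⟨h2, fun _ => hw⟩
  have htriv : ∀ c : k, algebraMap k K c ∈ comp O₂ W := by
    intro c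
    have h0 : algebraMap k K c = algebraMap K₁ K (algebraMap k K₁ c) :=
      IsScalarTower.algebraMap_apply k K₁ K c
    rw [h0]
    exact ⟨h₂.triv _, (hW _).2 (h₁.triv c)⟩
  -- the basis
  choose s hs hs0 hsB using fun j => clr_adjoin B₁ hfrac₁ B hB (h₂.memB j)
  let f : Fin (d₂ + d₁) → K := Fin.append (fun j => algebraMap K₁ K (s j) * f₂ j)
    (fun j => algebraMap K₁ K (f₁ j))
  have hf0 : ∀ j, f j ≠ 0 := by
    intro j
    refine Fin.addCases (fun j => ?_) (fun j => ?_) j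
    · simp only [f, Fin.append_left]
      refine mul_ne_zero ?_ (h₂.ne j)
      rw [Ne, map_eq_zero]
      exact hs0 j
    · simp only [f, Fin.append_right]
      rw [Ne, map_eq_zero]
      exact h₁.ne j
  have hprod : ∀ a : Fin (d₂ + d₁) → ℤ, ∏ j, f j ^ a j =
      (∏ j, f₂ j ^ a (Fin.castAdd d₁ j)) *
        algebraMap K₁ K ((∏ j, s j ^ a (Fin.castAdd d₁ j)) *
          ∏ j, f₁ j ^ a (Fin.natAdd d₂ j)) := by
    intro a
    rw [Fin.prod_univ_add]
    simp only [f, Fin.append_left, Fin.append_right, mul_zpow, Finset.prod_mul_distrib, map_mul,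
      map_prod, map_zpow₀]
    ring
  have hs00 : ∀ a : Fin d₂ → ℤ, ∏ j, s j ^ a j ≠ 0 := fun a =>
    Finset.prod_ne_zero_iff.2 fun j _ => zpow_ne_zero _ (hs0 j)
  have hf₁0 : ∀ a : Fin d₁ → ℤ, ∏ j, f₁ j ^ a j ≠ 0 := fun a =>
    Finset.prod_ne_zero_iff.2 fun j _ => zpow_ne_zero _ (h₁.ne j)
  have hf₂0 : ∀ a : Fin d₂ → ℤ, ∏ j, f₂ j ^ a j ≠ 0 := fun a =>
    Finset.prod_ne_zero_iff.2 fun j _ => zpow_ne_zero _ (h₂.ne j)
  have hindep : ∀ a : Fin (d₂ + d₁) → ℤ, (comp O₂ W).valuation (∏ j, f j ^ a j) = 1 → a = 0 := by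
    intro a ha
    have h0 : ∏ j, f j ^ a j ≠ 0 := Finset.prod_ne_zero_iff.2 fun j _ => zpow_ne_zero _ (hf0 j)
    have h1 := ((comp_one h0).1 ha).1
    rw [hprod, map_mul, hK₁ _ (mul_ne_zero (hs00 _) (hf₁0 _)), mul_one] at h1
    have h2 := h₂.indep _ h1
    have h3 : ∀ j, a (Fin.castAdd d₁ j) = 0 := fun j => congrFun h2 j
    rw [hprod] at ha
    simp only [h3, zpow_zero, Finset.prod_const_one, one_mul] at ha
    rw [hOone _ (hf₁0 _)] at ha
    have h4 := h₁.indep _ ha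
    funext j
    refine Fin.addCases (fun j => ?_) (fun j => ?_) j
    · exact h3 j
    · exact congrFun h4 j
  refine ⟨comp O₂ W, d₂ + d₁, f, ⟨htriv, ?_, hf0, hindep, ?_, ?_, ?_, ?_⟩, hOone⟩
  · intro j
    refine Fin.addCases (fun j => ?_) (fun j => ?_) j
    · simp only [f, Fin.append_left]
      exact hsB j
    · simp only [f, Fin.append_right]
      exact hB _ (h₁.memB j)
  · -- dependence
    intro x hx
    obtain ⟨n₂, hn₂, a₂, ha₂⟩ := h₂.dep x hx
    set y : K := x ^ n₂ * ∏ j, f₂ j ^ a₂ j with hy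
    have hy0 : y ≠ 0 := mul_ne_zero (pow_ne_zero _ hx) (hf₂0 _)
    have hyO : y ∈ O₂ := mem_of_val_one ha₂
    obtain ⟨P, hP, hPy⟩ := halg y hyO
    have hr0 : rs O₂ y hyO ≠ 0 := by
      intro h0
      rw [rs_eq_zero, ha₂] at h0
      exact lt_irrefl _ h0
    obtain ⟨n, hn, t, ht0, ht⟩ := tors i W hr0 P hP hPy
    -- `y ^ n * t` is a unit
    have h1 : (comp O₂ W).valuation (y ^ n * algebraMap K₁ K t) = 1 := by
      have hz0 : y ^ n * algebraMap K₁ K t ≠ 0 := mul_ne_zero (pow_ne_zero _ hy0) (by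
        rw [Ne, map_eq_zero]
        exact ht0)
      have hyn : y ^ n ∈ O₂ := pow_mem hyO n
      have hzO : y ^ n * algebraMap K₁ K t ∈ O₂ := O₂.mul_mem _ _ hyn (h₂.triv t)
      refine hunit _ hz0 ?_ hzO ?_
      · rw [map_mul, map_pow, ha₂, hK₁ t ht0, one_pow, one_mul]
      · rw [rs_mul hyn (h₂.triv t), hi]
        have h2 : rs O₂ (y ^ n) hyn = rs O₂ y hyO ^ n := by
          unfold rs
          rw [← map_pow]
          rfl
        rw [h2]
        exact ht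
    -- the value of `t * ∏ s ^ (-a₂ n)`
    set u : K₁ := t * (∏ j, s j ^ (a₂ j * n))⁻¹ with hu
    have hu0 : u ≠ 0 := mul_ne_zero ht0 (inv_ne_zero (hs00 _))
    obtain ⟨m, hm, a₁, ha₁⟩ := h₁.dep u hu0
    refine ⟨n₂ * n * m, Nat.mul_pos (Nat.mul_pos hn₂ hn) hm,
      Fin.append (fun j => a₂ j * n * m) (fun j => - a₁ j), ?_⟩
    rw [hprod]
    simp only [Fin.append_left, Fin.append_right]
    have h2 : x ^ (n₂ * n * m) * ((∏ j, f₂ j ^ (a₂ j * n * m)) *
        algebraMap K₁ K ((∏ j, s j ^ (a₂ j * n * m)) * ∏ j, f₁ j ^ (-a₁ j))) =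
        (y ^ n * algebraMap K₁ K t) ^ m *
          (algebraMap K₁ K (u ^ m * ∏ j, f₁ j ^ a₁ j))⁻¹ := by
      have e1 : ∏ j, f₂ j ^ (a₂ j * n * m) = (∏ j, f₂ j ^ a₂ j) ^ (n * m) := by
        rw [← Finset.prod_pow]
        refine Finset.prod_congr rfl fun j _ => ?_
        rw [mul_assoc, zpow_mul, ← zpow_natCast (f₂ j ^ a₂ j) (n * m)]
        push_cast
        rfl
      have e2 : ∏ j, s j ^ (a₂ j * n * m) = (∏ j, s j ^ (a₂ j * n)) ^ m := by
        rw [← Finset.prod_pow]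
        refine Finset.prod_congr rfl fun j _ => ?_
        rw [zpow_mul, zpow_natCast]
      have e3 : ∏ j, f₁ j ^ (-a₁ j) = (∏ j, f₁ j ^ a₁ j)⁻¹ := by
        rw [← Finset.prod_inv_distrib]
        exact Finset.prod_congr rfl fun j _ => zpow_neg _ _
      rw [e1, e2, e3, hu, hy]
      have hA : algebraMap K₁ K (∏ j, s j ^ (a₂ j * n)) ≠ 0 := by
        rw [Ne, map_eq_zero]
        exact hs00 _
      have hB' : algebraMap K₁ K (∏ j, f₁ j ^ a₁ j) ≠ 0 := by
        rw [Ne, map_eq_zero]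
        exact hf₁0 _
      have hT : algebraMap K₁ K t ≠ 0 := by
        rw [Ne, map_eq_zero]
        exact ht0
      generalize ∏ j, f₂ j ^ a₂ j = X₁ at *
      rw [map_mul, map_mul, map_pow, map_pow, map_inv₀, map_mul, map_inv₀]
      generalize algebraMap K₁ K (∏ j, s j ^ (a₂ j * n)) = X₂ at *
      generalize algebraMap K₁ K (∏ j, f₁ j ^ a₁ j) = X₃ at *
      generalize algebraMap K₁ K t = X₄ at *
      have e4 : ((X₄ * X₂⁻¹) ^ m)⁻¹ = X₂ ^ m * (X₄ ^ m)⁻¹ := by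
        rw [mul_pow, inv_pow, mul_inv, inv_inv, mul_comm]
      have e5 : X₄ ^ m * (X₄ ^ m)⁻¹ = 1 := mul_inv_cancel₀ (pow_ne_zero _ hT)
      have e6 : ((x ^ n₂ * X₁) ^ n * X₄) ^ m = x ^ (n₂ * n * m) * X₁ ^ (n * m) * X₄ ^ m := by
        ring
      rw [mul_inv, e4, e6]
      linear_combination (-(x ^ (n₂ * n * m) * X₁ ^ (n * m) * X₂ ^ m * X₃⁻¹)) * e5
    rw [h2, map_mul, map_pow, h1, one_pow, one_mul, map_inv₀,
      (hOone _ (mul_ne_zero (pow_ne_zero _ hu0) (hf₁0 _))).2 ha₁, inv_one]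
  · refine indep_basis _ htriv f hf0 hindep ?_
    rw [trdeg_add' h₁.tb h₂.tb, Fintype.card_fin]
  · -- residues are algebraic over `k`
    intro x hx
    obtain ⟨hx2, hxW⟩ := hx
    obtain ⟨P, hP, hPx⟩ := halg x hx2
    obtain ⟨Q, hQ, hQx⟩ := res_trans i O₁ W hW h₁.triv h₁.res _ hxW P hP hPx
    refine ⟨Q, hQ, ?_⟩
    have hyO : aeval x Q ∈ O₂ := by
      have h1 : aeval x Q = Q.eval₂ (algebraMap k K) x := rfl
      rw [h1, eval₂_eq_sum_range]
      refine sum_mem fun n _ => mul_mem ?_ (pow_mem hx2 n)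
      rw [IsScalarTower.algebraMap_apply k K₁ K]
      exact h₂.triv _
    have h1 : rs O₂ (aeval x Q) hyO = Q.eval₂ (i.comp (algebraMap k K₁)) (rs O₂ x hx2) := by
      have h2 : (⟨aeval x Q, hyO⟩ : O₂) = Q.eval₂
          (((algebraMap K₁ K).codRestrict O₂.toSubring h₂.triv).comp (algebraMap k K₁))
          (⟨x, hx2⟩ : O₂) := by
        apply Subtype.ext
        change aeval x Q = O₂.subtype (Q.eval₂ _ (⟨x, hx2⟩ : O₂))
        rw [hom_eval₂]
        change Q.eval₂ (algebraMap k K) x = _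
        congr 1
        exact IsScalarTower.algebraMap_eq k K₁ K
      unfold rs
      rw [h2, hom_eval₂]
      rfl
    have h3 : aeval x Q ∈ comp O₂ W := by
      refine ⟨hyO, ?_⟩
      rw [h1]
      exact (W.valuation_le_one_iff _).1 hQx.le
    refine lt_of_le_of_ne ((ValuationSubring.valuation_le_one_iff _ _).2 h3) fun h4 => ?_
    have hy0 : aeval x Q ≠ 0 := by
      intro h0
      rw [h0, map_zero] at h4
      exact zero_ne_one h4
    have h5 := ((comp_one hy0).1 h4).2 hyO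
    rw [h1] at h5
    rw [h5] at hQx
    exact lt_irrefl _ hQx
  · -- balanced
    intro b hb hb0
    obtain ⟨β, hβ, hbβ⟩ := h₂.bal b (Algebra.subset_adjoin hb) hb0
    obtain ⟨t, ht, ht0, htβ⟩ := clr_adjoin B₁ hfrac₁ B hB hβ
    set z : K := b * (algebraMap K₁ K t * β) with hz
    have hzv : O₂.valuation z = 1 := by
      have : z = b * β * algebraMap K₁ K t := by
        rw [hz]
        ring
      rw [this, map_mul, hbβ, hK₁ t ht0, one_mul]
    have hz0 : z ≠ 0 := by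
      intro h0
      rw [h0, map_zero] at hzv
      exact zero_ne_one hzv
    have hzO : z ∈ O₂ := mem_of_val_one hzv
    have hzB : z ∈ B := B.mul_mem hb htβ
    obtain ⟨P, hP, hPz⟩ := halg z hzO
    have hr0 : rs O₂ z hzO ≠ 0 := by
      intro h0
      rw [rs_eq_zero, hzv] at h0
      exact lt_irrefl _ h0
    obtain ⟨Q, hQ0, hQB, hQz⟩ := ann B₁ hfrac₁ i hr0 P hP hPz
    -- `Q = X * divX Q + Q 0`
    set w : K := Q.divX.eval₂ (algebraMap K₁ K) z with hw
    have hwB : w ∈ B := by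
      rw [hw, eval₂_eq_sum_range]
      refine sum_mem fun n _ => mul_mem ?_ (pow_mem hzB n)
      rw [coeff_divX]
      exact hB _ (hQB _)
    have hev : ∀ R : K₁[X], ∃ h : R.eval₂ (algebraMap K₁ K) z ∈ O₂,
        rs O₂ (R.eval₂ (algebraMap K₁ K) z) h = R.eval₂ i (rs O₂ z hzO) := by
      intro R
      have h1 : R.eval₂ (algebraMap K₁ K) z =
          O₂.subtype (R.eval₂ ((algebraMap K₁ K).codRestrict O₂.toSubring h₂.triv)
            (⟨z, hzO⟩ : O₂)) := by
        rw [hom_eval₂]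
        rfl
      have h2 : R.eval₂ (algebraMap K₁ K) z ∈ O₂ := by
        rw [h1]
        exact Subtype.mem _
      refine ⟨h2, ?_⟩
      have h3 : (⟨R.eval₂ (algebraMap K₁ K) z, h2⟩ : O₂) =
          R.eval₂ ((algebraMap K₁ K).codRestrict O₂.toSubring h₂.triv) (⟨z, hzO⟩ : O₂) :=
        Subtype.ext h1
      unfold rs
      rw [h3]
      exact hom_eval₂ _ _ _ _
    obtain ⟨hwO, hwr⟩ := hev Q.divX
    obtain ⟨c, hc, hcv⟩ := h₁.bal (Q.coeff 0) (hQB 0) hQ0
    have hc0 : c ≠ 0 := by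
      rintro rfl
      rw [mul_zero, map_zero] at hcv
      exact zero_ne_one hcv
    refine ⟨algebraMap K₁ K t * β * (w * algebraMap K₁ K c),
      B.mul_mem htβ (B.mul_mem hwB (hB _ hc)), ?_⟩
    have h1 : b * (algebraMap K₁ K t * β * (w * algebraMap K₁ K c)) =
        z * w * algebraMap K₁ K c := by
      rw [hz]
      ring
    rw [h1]
    have hzw : z * w ∈ O₂ := O₂.mul_mem _ _ hzO hwO
    have h2 : rs O₂ (z * w) hzw = i (-(Q.coeff 0)) := by
      rw [rs_mul hzO hwO]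
      have h3 : Q.eval₂ i (rs O₂ z hzO) =
          rs O₂ z hzO * Q.divX.eval₂ i (rs O₂ z hzO) + i (Q.coeff 0) := by
        conv_lhs => rw [← divX_mul_X_add Q, eval₂_add, eval₂_mul, eval₂_X, eval₂_C]
        ring
      rw [hQz] at h3
      have h4 : rs O₂ w hwO = Q.divX.eval₂ i (rs O₂ z hzO) := hwr
      rw [h4, map_neg]
      exact eq_neg_of_add_eq_zero_left h3.symm
    have hzwc : z * w * algebraMap K₁ K c ∈ O₂ := O₂.mul_mem _ _ hzw (h₂.triv c)
    have h3 : rs O₂ (z * w * algebraMap K₁ K c) hzwc = i (-(Q.coeff 0) * c) := by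
      rw [rs_mul hzw (h₂.triv c), h2, hi, map_mul]
    have h4 : W.valuation (rs O₂ (z * w * algebraMap K₁ K c) hzwc) = 1 := by
      rw [h3, hWone _ (mul_ne_zero (neg_ne_zero.2 hQ0) hc0), neg_mul, Valuation.map_neg]
      exact hcv
    have h5 : rs O₂ (z * w * algebraMap K₁ K c) hzwc ≠ 0 := by
      intro h0
      rw [h0, map_zero] at h4
      exact zero_ne_one h4
    have h6 : O₂.valuation (z * w * algebraMap K₁ K c) = 1 := by
      refine le_antisymm ((O₂.valuation_le_one_iff _).2 hzwc) (not_lt.1 fun h => h5 ?_)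
      exact (rs_eq_zero hzwc).2 h
    have h7 : z * w * algebraMap K₁ K c ≠ 0 := by
      intro h0
      rw [h0, map_zero] at h6
      exact zero_ne_one h6
    exact hunit _ h7 h6 hzwc h4

end

end Pool.Agent.SuU
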