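import Pool.Agent.Lib.MP_305fdd_al.Fr.F.Base

/-!
# MP_305fdd_al, surface groups, block U (helper50): composite valuation rings

`k < K₁ < K`, a balanced valuation ring `O₁` of `K₁ / k` and a balanced valuation ring `O₂` of
`K / K₁`: there is a balanced valuation ring `O` of `K / k` which induces `O₁` on `K₁` (the composite
of `O₂` and an extension of `O₁` to the residue field of `O₂`).
-/

set_option autoImplicit false
set_option linter.unusedSectionVars false

namespace Pool.Agent.SuU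

open Pool.Agent.FrD Polynomial IsLocalRing
open scoped Classical

section basic
variable {K : Type} [Field K]

theorem val_one_iff (O : ValuationSubring K) {x : K} (hx : x ≠ 0) :
    O.valuation x = 1 ↔ x ∈ O ∧ x⁻¹ ∈ O := by
  rw [← O.valuation_le_one_iff x, ← O.valuation_le_one_iff x⁻¹, map_inv₀]
  have h0 : O.valuation x ≠ 0 := by
    rw [Ne, map_eq_zero]
    exact hx
  constructor
  · intro h
    rw [h, inv_one]
    exact ⟨le_rfl, le_rfl⟩
  · rintro ⟨h1, h2⟩
    refine le_antisymm h1 ?_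
    exact (inv_le_one₀ (zero_lt_iff.2 h0)).1 h2

theorem mem_of_val_one {O : ValuationSubring K} {x : K} (h : O.valuation x = 1) : x ∈ O :=
  (O.valuation_le_one_iff x).1 h.le

/-- the residue of an element of the valuation ring -/
noncomputable def rs (O : ValuationSubring K) (x : K) (h : x ∈ O) : ResidueField O :=
  residue O ⟨x, h⟩

theorem rs_eq_zero {O : ValuationSubring K} {x : K} (h : x ∈ O) :
    rs O x h = 0 ↔ O.valuation x < 1 := by
  unfold rs
  rw [residue_eq_zero_iff, O.valuation_lt_one_iff ⟨x, h⟩]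

theorem rs_mul {O : ValuationSubring K} {x y : K} (hx : x ∈ O) (hy : y ∈ O) (hxy : x * y ∈ O) :
    rs O (x * y) hxy = rs O x hx * rs O y hy := by
  unfold rs
  rw [← map_mul]
  rfl

theorem rs_add {O : ValuationSubring K} {x y : K} (hx : x ∈ O) (hy : y ∈ O) (hxy : x + y ∈ O) :
    rs O (x + y) hxy = rs O x hx + rs O y hy := by
  unfold rs
  rw [← map_add]
  rfl

theorem rs_one {O : ValuationSubring K} : rs O 1 O.one_mem = 1 := by
  unfold rs
  exact map_one _

theorem rs_inv {O : ValuationSubring K} {x : K} (hx : x ∈ O) (hx' : x⁻¹ ∈ O) (h0 : x ≠ 0) :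
    rs O x⁻¹ hx' = (rs O x hx)⁻¹ := by
  have h1 : x * x⁻¹ ∈ O := O.mul_mem _ _ hx hx'
  have h2 := rs_mul hx hx' h1
  have h3 : rs O (x * x⁻¹) h1 = 1 := by
    have h4 : ∀ y (hy : y ∈ O), y = 1 → rs O y hy = 1 := by
      rintro y hy rfl
      exact rs_one
    exact h4 _ h1 (mul_inv_cancel₀ h0)
  rw [h3] at h2
  exact eq_inv_of_mul_eq_one_right h2.symm

/-- The composite of the valuation ring `O₂` and a valuation ring of its residue field. -/
def comp (O₂ : ValuationSubring K) (W : ValuationSubring (ResidueField O₂)) :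
    ValuationSubring K where
  carrier := {x | ∃ h : x ∈ O₂, rs O₂ x h ∈ W}
  mul_mem' := by
    rintro x y ⟨hx, hx'⟩ ⟨hy, hy'⟩
    refine ⟨O₂.mul_mem _ _ hx hy, ?_⟩
    rw [rs_mul hx hy]
    exact W.mul_mem _ _ hx' hy'
  one_mem' := ⟨O₂.one_mem, by rw [rs_one]; exact W.one_mem⟩
  add_mem' := by
    rintro x y ⟨hx, hx'⟩ ⟨hy, hy'⟩
    refine ⟨O₂.add_mem _ _ hx hy, ?_⟩
    rw [rs_add hx hy]
    exact W.add_mem _ _ hx' hy'
  zero_mem' := ⟨O₂.zero_mem, by
    have : rs O₂ 0 O₂.zero_mem = 0 := map_zero _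
    rw [this]
    exact W.zero_mem⟩
  neg_mem' := by
    rintro x ⟨hx, hx'⟩
    refine ⟨O₂.neg_mem _ hx, ?_⟩
    have : rs O₂ (-x) (O₂.neg_mem _ hx) = -rs O₂ x hx := by
      unfold rs
      rw [← map_neg]
      rfl
    rw [this]
    exact W.neg_mem _ hx'
  mem_or_inv_mem' := by
    intro x
    by_cases hx0 : x = 0
    · subst hx0
      left
      refine ⟨O₂.zero_mem, ?_⟩
      have : rs O₂ 0 O₂.zero_mem = 0 := map_zero _
      rw [this]
      exact W.zero_mem
    · rcases lt_trichotomy (O₂.valuation x) 1 with h | h | h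
      · left
        have h1 : x ∈ O₂ := (O₂.valuation_le_one_iff x).1 h.le
        refine ⟨h1, ?_⟩
        rw [(rs_eq_zero h1).2 h]
        exact W.zero_mem
      · obtain ⟨h1, h2⟩ := (val_one_iff O₂ hx0).1 h
        rcases W.mem_or_inv_mem (rs O₂ x h1) with h3 | h3
        · exact Or.inl ⟨h1, h3⟩
        · right
          refine ⟨h2, ?_⟩
          rw [rs_inv h1 h2 hx0]
          exact h3
      · right
        have h0 : O₂.valuation x⁻¹ < 1 := by
          rw [map_inv₀]
          exact inv_lt_one_of_one_lt₀ h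
        have h1 : x⁻¹ ∈ O₂ := (O₂.valuation_le_one_iff _).1 h0.le
        refine ⟨h1, ?_⟩
        rw [(rs_eq_zero h1).2 h0]
        exact W.zero_mem

variable {O₂ : ValuationSubring K} {W : ValuationSubring (ResidueField O₂)}

theorem mem_comp {x : K} : x ∈ comp O₂ W ↔ ∃ h : x ∈ O₂, rs O₂ x h ∈ W := Iff.rfl

/-- units of the composite -/
theorem comp_one {x : K} (hx : x ≠ 0) : (comp O₂ W).valuation x = 1 ↔
    O₂.valuation x = 1 ∧ ∀ h : x ∈ O₂, W.valuation (rs O₂ x h) = 1 := by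
  rw [val_one_iff _ hx, val_one_iff _ hx]
  constructor
  · rintro ⟨⟨h1, h2⟩, h3, h4⟩
    refine ⟨⟨h1, h3⟩, fun _ => ?_⟩
    have h5 : rs O₂ x h1 ≠ 0 := by
      intro h0
      rw [rs_eq_zero, (val_one_iff _ hx).2 ⟨h1, h3⟩] at h0
      exact lt_irrefl _ h0
    rw [val_one_iff _ h5]
    refine ⟨h2, ?_⟩
    rw [← rs_inv h1 h3 hx]
    exact h4
  · rintro ⟨⟨h1, h3⟩, h⟩
    have h5 : rs O₂ x h1 ≠ 0 := by
      intro h0
      rw [rs_eq_zero, (val_one_iff _ hx).2 ⟨h1, h3⟩] at h0
      exact lt_irrefl _ h0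
    obtain ⟨h6, h7⟩ := (val_one_iff _ h5).1 (h h1)
    refine ⟨⟨h1, h6⟩, h3, ?_⟩
    rw [rs_inv h1 h3 hx]
    exact h7

end basic

/-- Extension of valuation rings along field homomorphisms. -/
theorem exists_ext {K₁ κ : Type} [Field K₁] [Field κ] (i : K₁ →+* κ) (O₁ : ValuationSubring K₁) :
    ∃ W : ValuationSubring κ, ∀ x, i x ∈ W ↔ x ∈ O₁ := by
  let f : O₁ →+* κ := i.comp O₁.subtype
  have hf : Function.Injective f := i.injective.comp Subtype.val_injective
  let e : O₁ ≃+* f.range := RingEquiv.ofBijective f.rangeRestrict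
    ⟨fun a b h => hf (congrArg Subtype.val h), f.rangeRestrict_surjective⟩
  obtain ⟨W, hW, hP⟩ := exists_dom f.range ((maximalIdeal O₁).comap (e.symm : f.range →+* O₁))
  refine ⟨W, fun x => ⟨fun h => ?_, fun h => hW ⟨⟨x, h⟩, rfl⟩⟩⟩
  by_contra hx
  have hx0 : x ≠ 0 := by
    rintro rfl
    exact hx O₁.zero_mem
  have h1 : x⁻¹ ∈ O₁ := (O₁.mem_or_inv_mem x).resolve_left hx
  have h2 : (⟨x⁻¹, h1⟩ : O₁) ∈ maximalIdeal O₁ := by
    rw [mem_maximalIdeal, mem_nonunits_iff]
    intro hu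
    obtain ⟨y, hy⟩ := hu.exists_right_inv
    have h3 : x⁻¹ * (y : K₁) = 1 := congrArg Subtype.val hy
    have h4 : (y : K₁) = x := by
      field_simp at h3
      exact h3
    exact hx (h4 ▸ y.2)
  have h3 : i x⁻¹ ∈ f.range := ⟨⟨x⁻¹, h1⟩, rfl⟩
  have h4 : (⟨i x⁻¹, h3⟩ : f.range) ∈ (maximalIdeal O₁).comap (e.symm : f.range →+* O₁) := by
    rw [Ideal.mem_comap]
    have h5 : e ⟨x⁻¹, h1⟩ = ⟨i x⁻¹, h3⟩ := rfl
    rw [← h5]
    change e.symm (e ⟨x⁻¹, h1⟩) ∈ _
    rw [RingEquiv.symm_apply_apply]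
    exact h2
  have h5 := (hP ⟨i x⁻¹, h3⟩).2 h4
  rw [ValuationSubring.mem_nonunits_iff] at h5
  change W.valuation (i x⁻¹) < 1 at h5
  rw [map_inv₀, map_inv₀] at h5
  have h6 : W.valuation (i x) ≤ 1 := (W.valuation_le_one_iff _).2 h
  have h7 : W.valuation (i x) ≠ 0 := by
    rw [Ne, map_eq_zero, map_eq_zero]
    exact hx0
  exact absurd h5 (not_lt.2 (one_le_inv₀ (zero_lt_iff.2 h7) |>.2 h6))

/-- The value group of an algebraic extension is torsion over the value group. -/
theorem tors {K₁ κ : Type} [Field K₁] [Field κ] (i : K₁ →+* κ) (W : ValuationSubring κ) {r : κ}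
    (hr : r ≠ 0) (P : K₁[X]) (hP : P ≠ 0) (hPr : P.eval₂ i r = 0) :
    ∃ n : ℕ, 1 ≤ n ∧ ∃ s : K₁, s ≠ 0 ∧ W.valuation (r ^ n * i s) = 1 := by
  rw [eval₂_eq_sum, Polynomial.sum_def] at hPr
  obtain ⟨n₀, hn₀⟩ := (Polynomial.support_nonempty (p := P)).2 hP
  obtain ⟨a, ha, b, hb, hab, ha0, hb0, hv⟩ := two_terms W.valuation P.support
    (fun n => i (P.coeff n) * r ^ n) hPr hn₀ (mul_ne_zero (by
      rw [Ne, map_eq_zero]
      exact mem_support_iff.1 hn₀) (pow_ne_zero _ hr))
  have key : ∀ a b : ℕ, a < b → P.coeff a ≠ 0 → P.coeff b ≠ 0 →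
      W.valuation (i (P.coeff a) * r ^ a) = W.valuation (i (P.coeff b) * r ^ b) →
      ∃ n : ℕ, 1 ≤ n ∧ ∃ s : K₁, s ≠ 0 ∧ W.valuation (r ^ n * i s) = 1 := by
    intro a b hab ha hb h
    refine ⟨b - a, by omega, P.coeff b / P.coeff a, div_ne_zero hb ha, ?_⟩
    have h0 : i (P.coeff a) * r ^ a ≠ 0 := mul_ne_zero (by
      rw [Ne, map_eq_zero]
      exact ha) (pow_ne_zero _ hr)
    have h1 : r ^ (b - a) * i (P.coeff b / P.coeff a) =
        (i (P.coeff b) * r ^ b) / (i (P.coeff a) * r ^ a) := by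
      have h2 : r ^ b = r ^ (b - a) * r ^ a := by
        rw [← pow_add, Nat.sub_add_cancel hab.le]
      have h3 : i (P.coeff a) ≠ 0 := by
        rw [Ne, map_eq_zero]
        exact ha
      have h4 : r ^ a ≠ 0 := pow_ne_zero _ hr
      rw [h2, map_div₀]
      field_simp
    rw [h1, map_div₀, h, div_self]
    rw [← h, Ne, map_eq_zero]
    exact h0
  have ha' : P.coeff a ≠ 0 := mem_support_iff.1 ha
  have hb' : P.coeff b ≠ 0 := mem_support_iff.1 hb
  rcases lt_or_gt_of_ne hab with h | h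
  · exact key a b h ha' hb' hv
  · exact key b a h hb' ha' hv.symm

/-- Algebraic residues over algebraic residues. -/
theorem res_trans {k K₁ κ : Type} [Field k] [Field K₁] [Field κ] [Algebra k K₁] (i : K₁ →+* κ)
    (O₁ : ValuationSubring K₁) (W : ValuationSubring κ) (hW : ∀ x, i x ∈ W ↔ x ∈ O₁)
    (htriv : ∀ c : k, algebraMap k K₁ c ∈ O₁)
    (hres : ∀ x ∈ O₁, ∃ Q : k[X], Q ≠ 0 ∧ O₁.valuation (aeval x Q) < 1) (r : κ) (hr : r ∈ W)
    (P : K₁[X]) (hP : P ≠ 0) (hPr : P.eval₂ i r = 0) :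
    ∃ Q : k[X], Q ≠ 0 ∧ W.valuation (Q.eval₂ (i.comp (algebraMap k K₁)) r) < 1 := by
  -- scale the polynomial
  obtain ⟨m, hm, hmax⟩ := P.support.exists_max_image (fun n => O₁.valuation (P.coeff n))
    ((Polynomial.support_nonempty (p := P)).2 hP)
  have hm0 : P.coeff m ≠ 0 := mem_support_iff.1 hm
  set P' : K₁[X] := C (P.coeff m)⁻¹ * P with hP'
  have hc : ∀ n, P'.coeff n ∈ O₁ := by
    intro n
    rw [hP', coeff_C_mul]
    by_cases hn : P.coeff n = 0
    · rw [hn, mul_zero]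
      exact O₁.zero_mem
    · rw [← O₁.valuation_le_one_iff, map_mul, map_inv₀]
      have h1 := hmax n (mem_support_iff.2 hn)
      have h2 : O₁.valuation (P.coeff m) ≠ 0 := by
        rw [Ne, map_eq_zero]
        exact hm0
      rw [mul_comm, ← div_eq_mul_inv]
      exact (div_le_one₀ (zero_lt_iff.2 h2)).2 h1
  have hm1 : P'.coeff m = 1 := by
    rw [hP', coeff_C_mul, inv_mul_cancel₀ hm0]
  have hP'r : P'.eval₂ i r = 0 := by
    rw [hP', eval₂_mul, hPr, mul_zero]
  -- the residue fields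
  let i₀ : O₁ →+* W := (i.comp O₁.subtype).codRestrict W.toSubring (fun x => (hW x).2 x.2)
  let τ : O₁ →+* ResidueField W := (residue W).comp i₀
  let kk : k →+* ResidueField W := τ.comp ((algebraMap k K₁).codRestrict O₁.toSubring htriv)
  let : Algebra k (ResidueField W) := kk.toAlgebra
  have hτ : ∀ x : O₁, O₁.valuation (x : K₁) < 1 → τ x = 0 := by
    intro x hx
    change residue W (i₀ x) = 0
    rw [residue_eq_zero_iff, W.valuation_lt_one_iff]
    change W.valuation (i x) < 1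
    by_contra h
    have hx0 : (x : K₁) ≠ 0 := by
      intro h0
      rw [h0, map_zero, map_zero] at h
      exact h zero_lt_one
    have h1 : W.valuation (i (x : K₁)⁻¹) ≤ 1 := by
      rw [map_inv₀, map_inv₀]
      exact inv_le_one_of_one_le₀ (not_lt.1 h)
    have h2 := (hW _).1 ((W.valuation_le_one_iff _).1 h1)
    have h3 := (val_one_iff O₁ hx0).2 ⟨x.2, h2⟩
    rw [h3] at hx
    exact lt_irrefl _ hx
  have halg1 : ∀ x : O₁, IsAlgebraic k (τ x) := by
    intro x
    obtain ⟨Q, hQ, hQx⟩ := hres x x.2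
    refine ⟨Q, hQ, ?_⟩
    have h0 : aeval (x : K₁) Q ∈ O₁ := (O₁.valuation_le_one_iff _).1 hQx.le
    have h1 := hτ ⟨_, h0⟩ hQx
    rw [← h1]
    have h2 : (⟨aeval (x : K₁) Q, h0⟩ : O₁) =
        Q.eval₂ ((algebraMap k K₁).codRestrict O₁.toSubring htriv) x := by
      apply Subtype.ext
      change aeval (x : K₁) Q = O₁.subtype (Q.eval₂ _ x)
      rw [hom_eval₂]
      rfl
    rw [h2, hom_eval₂]
    rfl
  -- the residue of `r` is algebraic
  have halg : IsAlgebraic k (residue W ⟨r, hr⟩) := by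
    have h1 : IsAlgebraic (algebraicClosure k (ResidueField W)) (residue W ⟨r, hr⟩) := by
      let τ' : O₁ →+* algebraicClosure k (ResidueField W) :=
        τ.codRestrict (algebraicClosure k (ResidueField W)).toSubring
          (fun x => (mem_algebraicClosure_iff (F := k)).2 (halg1 x))
      have hlift : ∃ P₀ : O₁[X], P₀.map O₁.subtype = P' := by
        have h2 : P' ∈ Polynomial.lifts O₁.subtype := by
          rw [Polynomial.lifts_iff_coeff_lifts]
          intro n
          exact ⟨⟨P'.coeff n, hc n⟩, rfl⟩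
        exact (Polynomial.mem_lifts _).1 h2
      obtain ⟨P₀, hP₀⟩ := hlift
      refine ⟨P₀.map τ', ?_, ?_⟩
      · intro h0
        have h2 := congrArg (fun q => coeff q m) h0
        simp only [coeff_map, coeff_zero] at h2
        have h3 : P₀.coeff m = 1 := by
          apply Subtype.ext
          have h4 := congrArg (fun q => coeff q m) hP₀
          simp only [coeff_map] at h4
          rw [hm1] at h4
          exact h4
        rw [h3, map_one] at h2
        exact one_ne_zero h2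
      · rw [aeval_def, eval₂_map]
        have h2 : (algebraMap (algebraicClosure k (ResidueField W)) (ResidueField W)).comp τ' =
            (residue W).comp i₀ := rfl
        rw [h2, ← hom_eval₂]
        have h3 : P₀.eval₂ i₀ ⟨r, hr⟩ = 0 := by
          apply Subtype.ext
          change W.subtype (P₀.eval₂ i₀ ⟨r, hr⟩) = 0
          rw [hom_eval₂]
          have h4 : W.subtype.comp i₀ = i.comp O₁.subtype := rfl
          rw [h4, ← eval₂_map, hP₀]
          exact hP'r
        rw [h3, map_zero]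
    exact h1.restrictScalars k
  obtain ⟨Q, hQ, hQr⟩ := halg
  refine ⟨Q, hQ, ?_⟩
  have h1 : (Q.eval₂ (i₀.comp ((algebraMap k K₁).codRestrict O₁.toSubring htriv)) ⟨r, hr⟩ : W) ∈
      maximalIdeal W := by
    rw [← residue_eq_zero_iff, hom_eval₂]
    exact hQr
  rw [W.valuation_lt_one_iff] at h1
  have h2 : ((Q.eval₂ (i₀.comp ((algebraMap k K₁).codRestrict O₁.toSubring htriv)) ⟨r, hr⟩ : W) : κ)
      = Q.eval₂ (i.comp (algebraMap k K₁)) r := by
    change W.subtype (Q.eval₂ _ ⟨r, hr⟩) = _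
    rw [hom_eval₂]
    rfl
  rw [h2] at h1
  exact h1

end Pool.Agent.SuU
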