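import Pool.Agent.Lib.MP_305fdd_al.Su.U.Bal
import Pool.Agent.Lib.MP_305fdd_al.Fr.F.Gal
import Pool.Agent.Lib.MP_305fdd_al.Fr.D.Dich

/-!
# MP_305fdd_al, surface groups, block U (helper50): the property `PropU`

`PropU p U B`: for every Cartier operator `φ` and every `c ≠ 0` in `B` there is `b` in `B` with
`φⁿ (u φᵉ (b c)) ≠ 0` for all `e`, `n` and all `u` in `U`.
-/

set_option autoImplicit false
set_option linter.unusedSectionVars false

namespace Pool.Agent.SuU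

open Pool.Agent.F2Ch Pool.Agent.F2RF Pool.Agent.FrD Pool.Agent.FrF
open scoped Classical

/-- `PropQ` with multiplications by elements of `U` between the applications of the operator -/
def PropU (p : ℕ) [NeZero p] {K : Type} [Field K] (U : Set K) (B : Subring K) : Prop :=
  ∀ φ : K → K, LogTy p φ → ∀ c ∈ B, c ≠ 0 → ∃ b ∈ B, ∀ e : ℕ, ∀ u ∈ U, ∀ n : ℕ,
    φ^[n] (u * φ^[e] (b * c)) ≠ 0

/-- BASE: a balanced valuation ring gives `PropU` for every set of units. -/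
theorem baseU {k K : Type} [Field k] [Field K] [Algebra k K] (p : ℕ) [Fact p.Prime] [CharP k p]
    [PerfectRing k p] [CharP K p] (B : Subalgebra k K) (hB : B.FG)
    (hfrac : ∀ x : K, ∃ a ∈ B, ∃ b ∈ B, b ≠ 0 ∧ x * b = a)
    {O : ValuationSubring K} {d : ℕ} {f : Fin d → K} (h : Bal k B O f) (U : Set K)
    (hU : ∀ u ∈ U, O.valuation u = 1) : PropU p U B.toSubring := by
  intro φ hφ c hc hc0
  obtain ⟨x, π, hMB, hunit⟩ := exists_adapted p B hB hfrac h
  obtain ⟨g, hg, hgφ⟩ := w4 p K φ hφ d x π hMB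
  obtain ⟨a1, ha1, a2, ha2, ha20, haa⟩ := hfrac (g * c)
  have ha10 : a1 ≠ 0 := by
    rw [← haa]
    exact mul_ne_zero (mul_ne_zero hg hc0) ha20
  obtain ⟨a', ha', hv⟩ := h.bal a1 ha1 ha10
  refine ⟨a2 * a', B.mul_mem ha2 ha', fun e u hu n => ?_⟩
  have h2 : ∀ (e : ℕ) (z : K), O.valuation z = 1 → O.valuation ((π j0)^[e] z) = 1 := by
    intro e
    induction e with
    | zero => exact fun z hz => hz
    | succ e ih =>
      intro z hz
      rw [Function.iterate_succ_apply']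
      exact hunit _ (ih z hz)
  rw [iter_conj φ (π j0) g hg hgφ e, iter_conj φ (π j0) g hg hgφ n]
  refine mul_ne_zero (inv_ne_zero hg) ?_
  have h1 : g * (a2 * a' * c) = a1 * a' := by
    rw [← haa]
    ring
  rw [h1]
  have e2 : ∀ X, g * (u * (g⁻¹ * X)) = u * X := by
    intro X
    rw [mul_left_comm, ← mul_assoc g, mul_inv_cancel₀ hg, one_mul]
  rw [e2]
  intro h0
  have h3 := h2 n (u * (π j0)^[e] (a1 * a')) (by
    rw [map_mul, hU u hu, one_mul]
    exact h2 e _ hv)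
  rw [h0, map_zero] at h3
  exact zero_ne_one h3

/-- RELATIVE BASE: `B` has no semi-good valuation, `B₁ ⊆ B` has a balanced valuation ring `O₁`: then
`PropU` holds for `B` and the units of `O₁`. -/
theorem propU_rel {k K₁ K : Type} [Field k] [Field K₁] [Field K] [Algebra k K₁] [Algebra k K]
    [Algebra K₁ K] [IsScalarTower k K₁ K] (p : ℕ) [Fact p.Prime] [CharP k p] [PerfectRing k p]
    [CharP K p] (B₁ : Subalgebra k K₁)
    (hfrac₁ : ∀ x : K₁, ∃ a ∈ B₁, ∃ b ∈ B₁, b ≠ 0 ∧ x * b = a) (B : Subalgebra k K)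
    (hB : ∀ b ∈ B₁, algebraMap K₁ K b ∈ B) (hBfg : B.FG)
    (hfrac : ∀ x : K, ∃ a ∈ B, ∃ b ∈ B, b ≠ 0 ∧ x * b = a)
    (hns : ¬ ∃ v : K → ℝ, IsV v ∧ Triv k v ∧ (∃ x, v x ≠ 0) ∧ ∀ b ∈ B, b ≠ 0 → v b ≤ 0)
    {O₁ : ValuationSubring K₁} {d₁ : ℕ} {f₁ : Fin d₁ → K₁} (h₁ : Bal k B₁ O₁ f₁) :
    PropU p {x | ∃ u : K₁, O₁.valuation u = 1 ∧ algebraMap K₁ K u = x} B.toSubring := by
  obtain ⟨S, hS⟩ := hBfg
  have hsub : ∀ b ∈ B, b ∈ Algebra.adjoin K₁ (B : Set K) := fun b hb => Algebra.subset_adjoin hb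
  have hfg : (Algebra.adjoin K₁ (B : Set K)).FG := by
    refine ⟨S, le_antisymm (Algebra.adjoin_mono ?_) ?_⟩
    · rw [← hS]
      exact Algebra.subset_adjoin
    · rw [Algebra.adjoin_le_iff]
      intro b hb
      have hb' : b ∈ Algebra.adjoin k (S : Set K) := by
        rw [hS]
        exact hb
      have h1 : Algebra.adjoin k (S : Set K) ≤
          (Algebra.adjoin K₁ (S : Set K)).restrictScalars k := by
        rw [Algebra.adjoin_le_iff]
        exact Algebra.subset_adjoin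
      exact h1 hb'
  have hfrac' : ∀ x : K, ∃ a ∈ Algebra.adjoin K₁ (B : Set K), ∃ b ∈ Algebra.adjoin K₁ (B : Set K),
      b ≠ 0 ∧ x * b = a := by
    intro x
    obtain ⟨a, ha, b, hb, hb0, h⟩ := hfrac x
    exact ⟨a, hsub a ha, b, hsub b hb, hb0, h⟩
  rcases dichotomy (Algebra.adjoin K₁ (B : Set K)) hfg hfrac' with h | ⟨O₂, d₂, f₂, h₂⟩
  · exfalso
    obtain ⟨v, hv, ht, hne, hle⟩ := h
    refine hns ⟨v, hv, fun c => ?_, hne, fun b hb hb0 => hle b (hsub b hb) hb0⟩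
    rw [IsScalarTower.algebraMap_apply k K₁ K]
    exact ht _
  · obtain ⟨O, d, f, hO, hO₁⟩ := comp_bal B₁ hfrac₁ B hB h₁ h₂
    refine baseU p B ⟨S, hS⟩ hfrac hO _ ?_
    rintro _ ⟨u, hu, rfl⟩
    have hu0 : u ≠ 0 := by
      rintro rfl
      rw [map_zero] at hu
      exact zero_ne_one hu
    exact (hO₁ u hu0).2 hu

/-- STEP LEMMA for `PropU` (copy of `FrF.step`).  `F ⊆ E ⊆ L`, `F ⊆ K ⊆ L`; `L` is the field of fractions of the Laurent
polynomial ring `E[χ, χ⁻¹]`; `W` is a set of automorphisms of `L`, closed under inverses, with fixed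
field `K`, which preserves `E` and acts on `χ` by monomials with coefficients in `E`; `L = K L²`,
`E = F E²`, `E ∩ K = F`.  The elements of `BK` are Laurent polynomials, and for every nonzero
`c` in `BK` some product `b * c` with `b` in `BK` has a nonzero constant term.  Then `PropU` passes from `BF` to `BK`. -/
theorem stepU {F K E L : Type} [Field F] [Field K] [Field E] [Field L]
    [CharP F 2] [CharP K 2] [CharP E 2] [CharP L 2]
    (iFE : F →+* E) (iE : E →+* L) (iFK : F →+* K) (iK : K →+* L)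
    (hcomm : ∀ a, iE (iFE a) = iK (iFK a)) {m : ℕ} {χ : Fin m → L} (hL : Lau iE χ)
    (W : Set (L ≃+* L)) (hinv : ∀ w ∈ W, w.symm ∈ W)
    (hW1 : ∀ w ∈ W, ∀ z, w (iK z) = iK z)
    (hW2 : ∀ z, (∀ w ∈ W, w z = z) → ∃ y, iK y = z)
    (hWE : ∀ w ∈ W, ∀ a, ∃ b, w (iE a) = iE b)
    (hWχ : ∀ w ∈ W, ∀ j, ∃ (c : E) (l : Fin m → ℤ), w (χ j) = iE c * mo χ l)
    (hEK : ∀ (a : E) (y : K), iE a = iK y → ∃ f, iFE f = a)
    (hspK : ∀ z, z ∈ Subring.closure (Set.range iK ∪ Set.range (fun y : L => y ^ 2)))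
    (hspE : ∀ z, z ∈ Subring.closure (Set.range iFE ∪ Set.range (fun y : E => y ^ 2)))
    (hMB : ∃ (d : ℕ) (x : Fin d → F) (π : (Fin d → Fin 2) → F → F), MB 2 x π)
    (BF : Subring F) (BK : Subring K) (hBF : ∀ b ∈ BF, iFK b ∈ BK)
    (hfracF : ∀ x : F, ∃ a ∈ BF, ∃ b ∈ BF, b ≠ 0 ∧ x * b = a)
    (hfracK : ∀ x : K, ∃ a ∈ BK, ∃ b ∈ BK, b ≠ 0 ∧ x * b = a)
    (hct : ∀ c ∈ BK, c ≠ 0 → ∃ b ∈ BK, ∃ P, ev iE χ P = iK (b * c) ∧ P 0 ≠ 0)
    (U : Set F) (hQ : PropU 2 U BF) : PropU 2 (iFK '' U) BK := by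
  intro φ hφ c hc hc0
  obtain ⟨dF, x, πF, hF⟩ := hMB
  obtain ⟨dK, tK, πK, gK, hK, hgK, hφK⟩ := hφ
  -- the restrictions of the automorphisms to `E`
  have hweE : ∀ w ∈ W, ∃ we : E ≃+* E, ∀ a, w (iE a) = iE (we a) := by
    intro w hw
    obtain ⟨u, hu⟩ := exists_we w (hWE w hw)
    obtain ⟨v, hv⟩ := exists_we w.symm (hWE w.symm (hinv w hw))
    refine ⟨RingEquiv.ofRingHom u v ?_ ?_, hu⟩
    · ext a
      apply iE.injective
      rw [RingHom.comp_apply, ← hu, ← hv, RingEquiv.apply_symm_apply, RingHom.id_apply]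
    · ext a
      apply iE.injective
      rw [RingHom.comp_apply, ← hv, ← hu, RingEquiv.symm_apply_apply, RingHom.id_apply]
  -- the `2`-basis of `E`
  obtain ⟨πE, hE, hπE⟩ := ext_MB iFE x πF hF {v | ∃ w ∈ W, ∀ a, w (iE a) = iE (v a)}
    (by
      rintro v ⟨w, hw, hv⟩ z
      apply iE.injective
      rw [← hv, hcomm, hW1 w hw])
    (by
      intro z hz
      obtain ⟨y, hy⟩ := hW2 (iE z) (by
        intro w hw
        obtain ⟨v, hv⟩ := hweE w hw
        rw [hv, hz v ⟨w, hw, hv⟩])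
      exact hEK z y hy.symm) hspE
  -- the `2`-basis `(x, χ)` of `L`
  obtain ⟨π', hM, hD⟩ := lau_MB hE iE hL
  -- the `2`-basis `t` of `L`
  obtain ⟨πL, hT, hπL⟩ := ext_MB iK tK πK hK W hW1 hW2 hspK
  -- comparison
  have hlog : LogTy 2 (πL j0) := ⟨dK, _, πL, 1, hT, one_ne_zero, fun f => by simp⟩
  obtain ⟨g, hg, hgg⟩ := w4 2 L (πL j0) hlog _ _ π' hM
  have hwg : ∀ w ∈ W, w g = g := by
    intro w hw
    obtain ⟨v, hv⟩ := hweE w hw
    refine g_fixed hM hT w ?_ ?_ g hg hgg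
    · intro z
      refine pj_comm hE hL hM hD w (v : E →+* E) hv ?_ (hWχ w hw) (hWE _ (hinv w hw))
        (hWχ _ (hinv w hw)) z
      intro j
      apply iE.injective
      show iE (v (iFE (x j))) = _
      rw [← hv, hcomm, hW1 w hw]
    · intro z
      have h1 := pb_comm hT (w : L →+* L) (fun j => hW1 w hw (tK j)) j0 z
      exact h1
  obtain ⟨g0, hg0⟩ := hW2 g hwg
  -- numerator and denominator
  obtain ⟨g1, hg1, g2, hg2, hg20, hg12⟩ := hfracK (g0 * gK)
  have hg00 : g0 ≠ 0 := by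
    rintro rfl
    rw [map_zero] at hg0
    exact hg hg0.symm
  have hg10 : g1 ≠ 0 := by
    rw [← hg12]
    exact mul_ne_zero (mul_ne_zero hg00 hgK) hg20
  obtain ⟨b, hb, P, hP, hP0⟩ := hct (g1 * g2 * c) (BK.mul_mem (BK.mul_mem hg1 hg2) hc)
    (mul_ne_zero (mul_ne_zero hg10 hg20) hc0)
  -- the constant term is in `F`
  obtain ⟨a, ha⟩ : ∃ a, iFE a = P 0 := by
    obtain ⟨y, hy⟩ := hW2 (iE (P 0)) (by
      intro w hw
      obtain ⟨v, hv⟩ := hweE w hw
      have h1 := const_w hL w (v : E →+* E) hv (hWχ w hw) (hWE _ (hinv w hw)) P P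
        (by rw [hP, hW1 w hw])
      rw [hv]
      exact congrArg iE h1.symm)
    exact hEK _ y hy.symm
  have ha0 : a ≠ 0 := by
    rintro rfl
    rw [map_zero] at ha
    exact hP0 ha.symm
  obtain ⟨a1, ha1, a2, ha2, ha20, haa⟩ := hfracF a
  have ha10 : a1 ≠ 0 := by
    rw [← haa]
    exact mul_ne_zero ha0 ha20
  obtain ⟨b', hb', hb'e⟩ := hQ (πF j0) ⟨dF, x, πF, 1, hF, one_ne_zero, fun f => by simp⟩
    (a1 * a2) (BF.mul_mem ha1 ha2) (mul_ne_zero ha10 ha20)
  refine ⟨b * g2 ^ 2 * iFK (b' * a2 ^ 2), BK.mul_mem (BK.mul_mem hb (BK.pow_mem hg2 2))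
    (hBF _ (BF.mul_mem hb' (BF.pow_mem ha2 2))), ?_⟩
  rintro e _ ⟨w, hw, rfl⟩ n
  have e1 := iter_conj φ (πK j0) gK hgK hφK e (b * g2 ^ 2 * iFK (b' * a2 ^ 2) * c)
  rw [e1, iter_conj φ (πK j0) gK hgK hφK n]
  refine mul_ne_zero (inv_ne_zero hgK) ?_
  have e2 : ∀ X, gK * (iFK w * (gK⁻¹ * X)) = iFK w * X := by
    intro X
    rw [mul_left_comm, ← mul_assoc gK, mul_inv_cancel₀ hgK, one_mul]
  rw [e2]
  intro h0
  have h1 := iter_map iK (πK j0) (πL j0) (hπL j0) n (iFK w * (πK j0)^[e]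
    (gK * (b * g2 ^ 2 * iFK (b' * a2 ^ 2) * c)))
  rw [h0, map_zero, map_mul, ← iter_map iK (πK j0) (πL j0) (hπL j0) e,
    iter_conj (πL j0) (π' j0) g hg hgg e, iter_conj (πL j0) (π' j0) g hg hgg n] at h1
  have e3 : ∀ X, g * (iK (iFK w) * (g⁻¹ * X)) = iK (iFK w) * X := by
    intro X
    rw [mul_left_comm, ← mul_assoc g, mul_inv_cancel₀ hg, one_mul]
  rw [e3] at h1
  have h2 : g * iK (gK * (b * g2 ^ 2 * iFK (b' * a2 ^ 2) * c)) =
      ev iE χ (iFE (b' * a2 ^ 2) • P) := by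
    rw [ev_smul, hP, hcomm, ← hg0, ← map_mul, ← map_mul]
    congr 1
    rw [← hg12]
    ring
  rw [h2] at h1
  obtain ⟨R, hR, hR0⟩ := pj_iter hE hD e (iFE (b' * a2 ^ 2) • P)
  rw [hR, ← hcomm, ← ev_smul] at h1
  obtain ⟨R', hR', hR'0⟩ := pj_iter hE hD n (iFE w • R)
  rw [hR'] at h1
  have h3 : ev iE χ R' = 0 := (mul_eq_zero.1 h1).resolve_left (inv_ne_zero hg)
  have h4 := hL.inj R' h3
  rw [Finsupp.smul_apply, smul_eq_mul, ← ha, ← map_mul] at hR0
  have h5 : b' * a2 ^ 2 * a = b' * (a1 * a2) := by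
    rw [← haa]
    ring
  rw [h5, iter_map iFE (πF j0) (πE j0) (hπE j0) e] at hR0
  rw [h4, Finsupp.zero_apply, Finsupp.smul_apply, smul_eq_mul, hR0, ← map_mul,
    iter_map iFE (πF j0) (πE j0) (hπE j0) n] at hR'0
  have h6 : (πF j0)^[n] (w * (πF j0)^[e] (b' * (a1 * a2))) = 0 := by
    apply iFE.injective
    rw [← hR'0, map_zero]
  exact hb'e e w hw n h6

/-- LEMMA R for `PropU` (copy of `FrF.lemR`).  `E / F` finite Galois, `L` = fractions of the group ring `E[Λ]`; every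
automorphism of `E / F` extends to an automorphism of `L / K` acting monomially on `χ`; the
elements of `BK` are Laurent polynomials and the `E`-span of `BK` contains all monomials. -/
theorem lemRU {F E K L Λ : Type} [Field F] [Field E] [Field K] [Field L]
    [CharP F 2] [CharP E 2] [CharP K 2] [CharP L 2] [Algebra F E] [FiniteDimensional F E]
    [IsGalois F E] [AddCommGroup Λ] [Module.Free ℤ Λ] [Module.Finite ℤ Λ]
    (iE : E →+* L) (iFK : F →+* K) (iK : K →+* L)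
    (hcomm : ∀ a, iE (algebraMap F E a) = iK (iFK a))
    (χ : Λ → L) (hL : LauG iE χ)
    (hw : ∀ w : E ≃ₐ[F] E, ∃ u : L ≃+* L, (∀ a, u (iE a) = iE (w a)) ∧ (∀ z, u (iK z) = iK z) ∧
      ∀ l, ∃ (c : E) (l' : Λ), u (χ l) = iE c * χ l')
    (hMB : ∃ (d : ℕ) (x : Fin d → F) (π : (Fin d → Fin 2) → F → F), MB 2 x π)
    (BF : Subring F) (BK : Subring K) (hBF : ∀ b ∈ BF, iFK b ∈ BK)
    (hfracF : ∀ x : F, ∃ a ∈ BF, ∃ b ∈ BF, b ≠ 0 ∧ x * b = a)
    (hfracK : ∀ x : K, ∃ a ∈ BK, ∃ b ∈ BK, b ≠ 0 ∧ x * b = a)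
    (hlau : ∀ b ∈ BK, ∃ P, evG iE χ P = iK b)
    (hspan : ∀ l, ∃ (n : ℕ) (e : Fin n → E) (b : Fin n → K), (∀ j, b j ∈ BK) ∧
      χ l = ∑ j, iE (e j) * iK (b j))
    (U : Set F) (hQ : PropU 2 U BF) : PropU 2 (iFK '' U) BK := by
  -- `L` is generated by `E` and `K`
  have hcl : ∀ z : L, z ∈ Subring.closure (Set.range iE ∪ Set.range iK) := by
    intro z
    apply closure_top iE iK
    · intro a
      obtain ⟨P, hP, hP0⟩ := Algebra.IsAlgebraic.isAlgebraic (R := F) a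
      refine ⟨P.map iFK, (Polynomial.map_ne_zero_iff iFK.injective).2 hP, ?_⟩
      rw [Polynomial.eval₂_map]
      have h1 : iK.comp iFK = iE.comp (algebraMap F E) := by
        ext x
        exact (hcomm x).symm
      rw [h1, ← Polynomial.hom_eval₂]
      have h2 : Polynomial.eval₂ (algebraMap F E) a P = 0 := hP0
      rw [h2, map_zero]
    · intro M hME hMK z
      have hχ : ∀ l, χ l ∈ M := by
        intro l
        obtain ⟨n, e, b, _, hb⟩ := hspan l
        rw [hb]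
        exact sum_mem fun j _ => mul_mem (hME _) (hMK _)
      have hev : ∀ P : Λ →₀ E, evG iE χ P ∈ M := by
        intro P
        exact sum_mem fun l _ => mul_mem (hME _) (hχ _)
      obtain ⟨P, Q, hQ0, hz⟩ := hL.frac z
      have h1 : z = evG iE χ P / evG iE χ Q := by
        rw [← hz]
        field_simp
      rw [h1]
      exact div_mem (hev P) (hev Q)
  choose u huE huK huχ using hw
  obtain ⟨m, ⟨b⟩⟩ : ∃ m : ℕ, Nonempty (Module.Basis (Fin m) ℤ Λ) :=
    ⟨_, ⟨Module.finBasis ℤ Λ⟩⟩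
  -- the set of automorphisms
  set W : Set (L ≃+* L) := {v | (∀ z, v (iK z) = iK z) ∧ ∃ w : E ≃ₐ[F] E, ∀ a, v (iE a) = iE (w a)}
    with hWdef
  have huW : ∀ w, u w ∈ W := fun w => ⟨huK w, w, huE w⟩
  have huniq : ∀ v ∈ W, ∃ w, v = u w := by
    rintro v ⟨hvK, w, hvE⟩
    refine ⟨w, ?_⟩
    ext z
    have h1 : Set.EqOn (v : L →+* L) (u w : L →+* L) (Set.range iE ∪ Set.range iK) := by
      rintro _ (⟨a, rfl⟩ | ⟨y, rfl⟩)
      · show v (iE a) = u w (iE a)
        rw [hvE, huE]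
      · show v (iK y) = u w (iK y)
        rw [hvK, huK]
    exact RingHom.eqOn_set_closure h1 (hcl z)
  have hfixE : ∀ a : E, (∀ w : E ≃ₐ[F] E, w a = a) → ∃ f, algebraMap F E f = a := by
    intro a ha
    have h1 := (IsGalois.mem_bot_iff_fixed a).2 ha
    rw [IntermediateField.mem_bot] at h1
    exact h1
  -- trace
  obtain ⟨θ, hθ⟩ := Algebra.trace_surjective F E 1
  have htr : ∀ z : L, ∀ a : E, ∃ y, ∑ w : E ≃ₐ[F] E, u w (z * iE a) = iK y := by
    intro z
    refine closure_prod iE iK (fun z => ∀ a : E, ∃ y, ∑ w : E ≃ₐ[F] E, u w (z * iE a) = iK y)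
      ?_ ?_ ?_ ?_ z (hcl z)
    · intro x y hx hy a
      obtain ⟨x', hx'⟩ := hx a
      obtain ⟨y', hy'⟩ := hy a
      refine ⟨x' + y', ?_⟩
      rw [map_add, ← hx', ← hy', ← Finset.sum_add_distrib]
      refine Finset.sum_congr rfl fun w _ => ?_
      rw [add_mul, map_add]
    · intro x hx a
      obtain ⟨x', hx'⟩ := hx a
      refine ⟨-x', ?_⟩
      rw [map_neg, ← hx', ← Finset.sum_neg_distrib]
      refine Finset.sum_congr rfl fun w _ => ?_
      rw [neg_mul, map_neg]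
    · intro a
      refine ⟨0, ?_⟩
      rw [map_zero]
      refine Finset.sum_eq_zero fun w _ => ?_
      rw [zero_mul, map_zero]
    · intro c y a
      refine ⟨y * iFK (Algebra.trace F E (c * a)), ?_⟩
      rw [map_mul, ← hcomm, trace_eq_sum_automorphisms, map_sum, Finset.mul_sum]
      refine Finset.sum_congr rfl fun w _ => ?_
      rw [map_mul, map_mul, huE, huK, huE, map_mul, map_mul]
      ring
  have hW2 : ∀ z, (∀ w ∈ W, w z = z) → ∃ y, iK y = z := by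
    intro z hz
    obtain ⟨y, hy⟩ := htr z θ
    refine ⟨y, ?_⟩
    rw [← hy]
    have h1 : ∀ w : E ≃ₐ[F] E, u w (z * iE θ) = z * iE (w θ) := by
      intro w
      rw [map_mul, huE, hz _ (huW w)]
    rw [Finset.sum_congr rfl fun w _ => h1 w, ← Finset.mul_sum, ← map_sum,
      ← trace_eq_sum_automorphisms, hθ, map_one, map_one, mul_one]
  refine stepU (algebraMap F E) iE iFK iK hcomm (hL.toLau b) W ?_ ?_ hW2 ?_ ?_ ?_ ?_ ?_ hMB BF BK
    hBF hfracF hfracK ?_ U hQ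
  · rintro v ⟨hvK, w, hvE⟩
    refine ⟨fun z => ?_, w.symm, fun a => ?_⟩
    · rw [RingEquiv.symm_apply_eq, hvK]
    · rw [RingEquiv.symm_apply_eq, hvE, AlgEquiv.apply_symm_apply]
  · exact fun v hv => hv.1
  · rintro v ⟨_, w, hvE⟩ a
    exact ⟨w a, hvE a⟩
  · intro v hv j
    obtain ⟨w, rfl⟩ := huniq v hv
    obtain ⟨c, l', hc⟩ := huχ w (b j)
    exact ⟨c, b.equivFun l', by rw [hc, hL.mo b]⟩
  · intro a y hay
    apply hfixE
    intro w
    apply iE.injective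
    rw [← huE, hay, huK]
  · intro z
    have h1 : Subring.closure (Set.range iE ∪ Set.range iK) ≤
        Subring.closure (Set.range iK ∪ Set.range (fun y : L => y ^ 2)) := by
      rw [Subring.closure_le]
      rintro _ (⟨a, rfl⟩ | ⟨y, rfl⟩)
      · have h2 := closure_sq (F := F) a
        have h3 : iE a ∈ (Subring.closure (Set.range (algebraMap F E) ∪
            Set.range (fun y : E => y ^ 2))).map iE := ⟨a, h2, rfl⟩
        rw [RingHom.map_closure] at h3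
        refine Subring.closure_mono ?_ h3
        rintro _ ⟨_, ⟨f, rfl⟩ | ⟨y, rfl⟩, rfl⟩
        · left
          exact ⟨iFK f, (hcomm f).symm⟩
        · right
          exact ⟨iE y, (map_pow iE y 2).symm⟩
      · exact Subring.subset_closure (Or.inl ⟨y, rfl⟩)
    exact h1 (hcl z)
  · exact fun z => closure_sq (F := F) z
  · -- constant terms
    intro c hc hc0
    obtain ⟨P, hP⟩ := hlau c hc
    have hP0 : P ≠ 0 := by
      rintro rfl
      rw [evG_zero] at hP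
      exact hc0 (iK.injective (by rw [← hP, map_zero]))
    obtain ⟨l, hl⟩ := Finsupp.ne_iff.1 hP0
    obtain ⟨n, e, d, hd, hχ⟩ := hspan (-l)
    choose R hR using fun j => hlau (d j * c) (BK.mul_mem (hd j) hc)
    have h1 : evG iE χ (P.mapDomain fun n => n + -l) = evG iE χ (∑ j, e j • R j) := by
      rw [evG_shift hL, hP, hχ, evG_sum, Finset.mul_sum]
      refine Finset.sum_congr rfl fun j _ => ?_
      rw [evG_smul, hR, map_mul]
      ring
    have h2 := hL.inj' h1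
    have h3 : (P.mapDomain fun n => n + -l) 0 = P l := by
      have h4 : (0 : Λ) = (fun n => n + -l) l := by simp
      rw [h4, Finsupp.mapDomain_apply (fun x y hxy => by simpa using hxy)]
    rw [h2, Finsupp.finsetSum_apply] at h3
    obtain ⟨j, _, hj⟩ : ∃ j ∈ Finset.univ, (e j • R j) 0 ≠ 0 := by
      apply Finset.exists_ne_zero_of_sum_ne_zero
      rw [h3]
      exact hl
    refine ⟨d j, hd j, (R j).mapDomain b.equivFun, ?_, ?_⟩
    · rw [hL.ev b, hR]
    · rw [mapDomain_zero_apply]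
      intro h0
      apply hj
      rw [Finsupp.smul_apply, h0, smul_zero]

end Pool.Agent.SuU
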