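import Pool.Agent.Lib.MP_305fdd_al.Fr.L.Core
import Pool.Agent.Lib.MP_305fdd_al.Su.U.Step

/-!
# MP_305fdd_al, surface groups, block U (helper50): from a Laurent structure to the property `PropU`
-/

set_option autoImplicit false
set_option linter.unusedSectionVars false

namespace Pool.Agent.SuU

open Matrix Pool.Agent.FrL Pool.Agent.FrF Pool.Agent.F2RF Pool.Agent.F2Ch

section
variable {Kf K E ι : Type} [Field Kf] [Field K] [Field E] [CharP Kf 2] [CharP K 2] [CharP E 2]
  [Algebra Kf E] [FiniteDimensional Kf E] [IsGalois Kf E] [Fintype ι]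

/-- THE CORE for `PropU` (copy of `FrL.core`): a Laurent structure for the ring `B` over the Galois
extension `E / Kf` gives `PropU 2 U BF → PropU 2 (iFK '' U) BK`. -/
theorem coreU (L : AddSubgroup (ι → ℤ)) (iFK : Kf →+* K) (B : Subring K)
    (hB : ∀ x : K, ∃ a ∈ B, ∃ b ∈ B, b ≠ 0 ∧ x * b = a)
    (φ : B →+* LR E ι) (hφ : Function.Injective φ)
    (hsupp : ∀ b n, (φ b).coeff n ≠ 0 → n ∈ L)
    (hspan : ∀ n ∈ L, AddMonoidAlgebra.single n (1 : E) ∈ Submodule.span E (Set.range φ))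
    (hgal : ∀ w : E ≃ₐ[Kf] E, ∃ (Ω : Type) (_ : Field Ω) (i : E →+* Ω) (κ : ι → Ωˣ) (ε : ι → ℤˣ),
      ∀ b, th (i.comp (w : E →+* E)) 1 1 (φ b) = th i κ ε (φ b))
    (hgen : ∀ M : Subfield Kf, (∀ k, (∃ h : iFK k ∈ B, φ ⟨iFK k, h⟩ =
      AddMonoidAlgebra.single 0 (algebraMap Kf E k)) → k ∈ M) → ∀ k, k ∈ M)
    (hMB : ∃ (d : ℕ) (x : Fin d → Kf) (π : (Fin d → Fin 2) → Kf → Kf), MB 2 x π)
    (BF : Subring Kf) (BK : Subring K) (hBF : ∀ b ∈ BF, iFK b ∈ BK)
    (hfracF : ∀ x : Kf, ∃ a ∈ BF, ∃ b ∈ BF, b ≠ 0 ∧ x * b = a)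
    (hBK : ∀ b ∈ B, b ∈ BK) (hBK' : ∀ b ∈ BK, ∃ k : Kf, k ≠ 0 ∧ iFK k * b ∈ B)
    (U : Set Kf) (hQ : PropU 2 U BF) : PropU 2 (iFK '' U) BK := by
  classical
  have h1 : ∀ b : B, ∃ g, jL E L g = φ b := fun b => mem_jL L _ (hsupp b)
  choose φ' hφ' using h1
  let φL : B →+* RL E L :=
    { toFun := φ'
      map_one' := jL_inj L (by rw [hφ', map_one, map_one])
      map_mul' := fun x y => jL_inj L (by rw [hφ', map_mul, map_mul, hφ', hφ'])
      map_zero' := jL_inj L (by rw [hφ', map_zero, map_zero])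
      map_add' := fun x y => jL_inj L (by rw [hφ', map_add, map_add, hφ', hφ']) }
  have hφL : ∀ b, jL E L (φL b) = φ b := hφ'
  have hφLi : Function.Injective φL := by
    intro x y h
    apply hφ
    rw [← hφL, ← hφL, h]
  have hfr : IsFractionRing B K := by
    refine IsFractionRing.of_field B K fun x => ?_
    obtain ⟨a, ha, b, hb, hb0, h⟩ := hB x
    refine ⟨⟨a, ha⟩, ⟨b, hb⟩, ?_⟩
    change x = a / b
    rw [eq_div_iff hb0, h]
  have hψ : Function.Injective ((algebraMap (RL E L) (KL E L)).comp φL) := by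
    rw [RingHom.coe_comp]
    exact (IsFractionRing.injective _ _).comp hφLi
  let iK : K →+* KL E L := IsFractionRing.lift hψ
  have hiK : ∀ b : B, iK (b : K) = algebraMap (RL E L) (KL E L) (φL b) :=
    fun b => IsFractionRing.lift_algebraMap hψ b
  have : CharP (KL E L) 2 := charP_of_injective_ringHom (iE (E := E) L).injective 2
  have hcomm : ∀ a, iE L (algebraMap Kf E a) = iK (iFK a) := by
    let M : Subfield Kf := RingHom.eqLocusField ((iE L).comp (algebraMap Kf E)) (iK.comp iFK)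
    intro a
    have h2 : a ∈ M := by
      refine hgen M ?_ a
      rintro k ⟨h, hk⟩
      change iE L (algebraMap Kf E k) = iK (iFK k)
      have h3 := hiK ⟨iFK k, h⟩
      rw [iE_apply]
      refine Eq.trans ?_ h3.symm
      congr 1
      apply jL_inj L
      rw [hφL, hk, jL_single]
      rfl
    exact h2
  refine lemRU (iE L) iFK iK hcomm (chi L) (lauG L) ?_ hMB BF BK hBF hfracF ?_ ?_ ?_ U hQ
  · intro w
    obtain ⟨u, hu1, hu2, hu3⟩ := gal_equiv φ L hsupp hspan w hgal
    refine ⟨IsFractionRing.ringEquivOfRingEquiv u, ?_, ?_, ?_⟩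
    · intro a
      rw [iE_apply, iE_apply, IsFractionRing.ringEquivOfRingEquiv_algebraMap, hu1]
    · intro z
      have h2 : ((IsFractionRing.ringEquivOfRingEquiv u : KL E L ≃+* KL E L) :
          KL E L →+* KL E L).comp iK = iK := by
        apply IsFractionRing.ringHom_ext (A := B)
        intro b
        change IsFractionRing.ringEquivOfRingEquiv u (iK (b : K)) = iK (b : K)
        rw [hiK, IsFractionRing.ringEquivOfRingEquiv_algebraMap, hu2 b _ (hφL b)]
      exact congrFun (congrArg DFunLike.coe h2) z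
    · intro l
      obtain ⟨c, l', h⟩ := hu3 l
      refine ⟨c, l', ?_⟩
      rw [chi, IsFractionRing.ringEquivOfRingEquiv_algebraMap, h, iE_apply, chi, ← map_mul,
        AddMonoidAlgebra.single_mul_single, zero_add, mul_one]
  · intro x
    obtain ⟨a, ha, b, hb, h⟩ := hB x
    exact ⟨a, hBK a ha, b, hBK b hb, h⟩
  · intro b hb
    obtain ⟨k, hk0, hk⟩ := hBK' b hb
    refine ⟨(algebraMap Kf E k)⁻¹ • (φL ⟨_, hk⟩).coeff, ?_⟩
    have hk1 : iK (iFK k) ≠ 0 := by
      rw [Ne, map_eq_zero, map_eq_zero]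
      exact hk0
    rw [evG_smul, evG_eq, ← hiK ⟨_, hk⟩, map_inv₀, hcomm]
    change (iK (iFK k))⁻¹ * iK (iFK k * b) = iK b
    rw [map_mul, inv_mul_cancel_left₀ hk1]
  · intro l
    obtain ⟨c, hc⟩ := (Finsupp.mem_span_range_iff_exists_finsupp).1 (hspan l l.2)
    let e := c.support.equivFin
    refine ⟨c.support.card, fun j => c (e.symm j : B), fun j => ((e.symm j : B) : K),
      fun j => hBK _ (e.symm j : B).2, ?_⟩
    have h2 : AddMonoidAlgebra.single l (1 : E) =
        ∑ j : Fin c.support.card, AddMonoidAlgebra.single 0 (c (e.symm j : B)) *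
          φL (e.symm j : B) := by
      apply jL_inj L
      rw [jL_single, ← hc, map_sum, Finsupp.sum]
      rw [← Finset.sum_coe_sort, ← e.symm.sum_comp]
      refine Finset.sum_congr rfl fun j _ => ?_
      rw [map_mul, hφL, jL_single]
      exact Algebra.smul_def _ _
    rw [chi, h2, map_sum]
    refine Finset.sum_congr rfl fun j _ => ?_
    rw [map_mul, hiK, iE_apply]

end

end Pool.Agent.SuU
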