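import Pool.Agent.Lib.MP_305fdd_al.Su.L.Main
import Pool.Agent.Lib.MP_305fdd_al.Su.U.Rel

/-!
# MP_305fdd_al, surface groups, block U (helper50): the properties `PropS`, `PropR` pass from the vertex
groups to the group
-/

set_option autoImplicit false
set_option linter.unusedSectionVars false

namespace Pool.Agent.SuU

open Matrix Pool.Agent.FrS Pool.Agent.FrN Pool.Agent.FrAsm Pool.Agent.FrL Pool.Agent.SuS
  Pool.Agent.SuL

open Classical in
/-- LAU + FORM for `PropS` (copy of `SuL.p_lau'`) -/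
theorem p_lauS {K₁ Γ K F : Type} [Field K₁] [Group Γ] [Field K] [Field F] [Algebra (ZMod 2) K]
    [Algebra (ZMod 2) F] [Algebra K F] {T : Γ → K} {ρ : Γ →* SL2 F} (H : Sc Γ K F T ρ)
    (S : GG Γ) (hS : S.Adm) (y : K) (hy : y ∈ BV T S) (hy0 : y ≠ 0)
    (i₁ : K₁ →+* KV T S) (𝒮 : Set (Set (List (K₁ × ℕ)))) (hQ : PropS 2 i₁ 𝒮 (BVy T S y).toSubring) :
    PropS 2 ((algebraMap (KV T S) K).comp i₁) 𝒮 (ly (BB 2 T) y).toSubring := by
  have hdiv := H.div
  obtain ⟨E, _, _, hfd, hgal, ι, hι, ⟨d⟩⟩ := exists_EL' H S hS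
  have hK2 : CharP K 2 := charP_of_injective_algebraMap (algebraMap (ZMod 2) K).injective 2
  have hF2 : CharP F 2 := charP_of_injective_algebraMap (algebraMap (ZMod 2) F).injective 2
  have hKf2 : CharP (KV T S) 2 :=
    charP_of_injective_algebraMap (algebraMap (ZMod 2) (KV T S)).injective 2
  have hE2 : CharP E 2 := charP_of_injective_algebraMap (algebraMap (KV T S) E).injective 2
  let : Algebra (ZMod 2) E := ZMod.algebra E 2
  obtain ⟨bt⟩ := exists_BR S hS.toUP hS.ab d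
  have hRt0 : ∀ g, (((mp (algebraMap F (AlgebraicClosure F))).comp ρ) g).1.trace =
      algebraMap F (AlgebraicClosure F) ((ρ g).1.trace) := by
    intro g
    change (mp (algebraMap F (AlgebraicClosure F)) (ρ g)).1.trace = _
    rw [mp_trace]
  have hgd : Gd bt.rt := by
    obtain ⟨x, hx, z, hz, hxz⟩ := sc_good H
    refine ⟨x, hx, z, hz, fun h0 => hxz ?_⟩
    have h1 := bt.eval hS.gen (x * z * x⁻¹ * z⁻¹)
    rw [h0, map_zero, hRt0] at h1
    exact (algebraMap F (AlgebraicClosure F)).injective (by rw [map_zero]; exact h1.symm)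
  obtain ⟨φ, hφ⟩ := sc_homB H (LR E S.E) bt.rt hgd
  obtain ⟨v, hv⟩ := exists_NA S ρ H.inj hdiv hS.gen hS.ne H.nab
  obtain ⟨L, hL1, hL2⟩ := lat bt hS.gen v hv
  have hRt : ∀ g, (((mp (algebraMap F (AlgebraicClosure F))).comp ρ) g).1.trace =
      algebraMap F (AlgebraicClosure F) (algebraMap K F (T g)) := by
    intro g
    change (mp (algebraMap F (AlgebraicClosure F)) (ρ g)).1.trace = _
    rw [mp_trace, H.tr]
  have hev : ∀ x : (BB 2 T).toSubring, evR ι d.lam (φ x) =
      algebraMap F (AlgebraicClosure F) (algebraMap K F x) := by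
    intro x
    exact B_top T (RingHom.eqLocus ((evR ι d.lam).comp φ)
      (((algebraMap F (AlgebraicClosure F)).comp (algebraMap K F)).comp
        (BB 2 T).toSubring.subtype)) (fun g => by
      change evR ι d.lam (φ ⟨T g, _⟩) = algebraMap F (AlgebraicClosure F) (algebraMap K F (T g))
      rw [hφ, bt.eval hS.gen, hRt]) x
  have hinj : Function.Injective φ := by
    intro x z h
    have h1 := congrArg (evR ι d.lam) h
    rw [hev, hev] at h1
    exact Subtype.ext ((algebraMap K F).injective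
      ((algebraMap F (AlgebraicClosure F)).injective h1))
  have hvt : ∀ v (x : S.G v), (bt.rt x).1.trace =
      AddMonoidAlgebra.single 0 (d.r v x).1.trace := by
    intro v x
    rw [← FrL.trace_conj (bt.g v), bt.vtx, mp_trace]
    rfl
  have hdt : ∀ v (x : S.G v), (d.r v x).1.trace =
      algebraMap (KV T S) E ⟨T x, mem_KV x.2⟩ := by
    intro v x
    apply ι.injective
    rw [← mp_trace, d.hr, FrL.trace_conj, hι, hRt]
  refine coreS L (algebraMap (KV T S) K) (BB 2 T).toSubring H.fracK φ hinj ?_ ?_ ?_ ?_ ?_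
    (BVy T S y).toSubring (ly (BB 2 T) y).toSubring ?_ ?_ ?_ ?_ i₁ 𝒮 hQ
  · intro x n hn
    obtain ⟨g, hg⟩ := B_top T ((jL E L).range.comap φ) (fun g => by
      change φ ⟨T g, _⟩ ∈ (jL E L).range
      rw [hφ]
      exact mem_jL L _ (hL1 g)) x
    rw [← hg] at hn
    exact jL_coeff L g n hn
  · intro n hn
    refine Submodule.span_mono ?_ (hL2 n hn)
    rintro _ ⟨g, rfl⟩
    exact ⟨_, hφ g⟩
  · intro w
    obtain ⟨κ, ε, hκ⟩ := bt.gal (by
      intro x
      obtain ⟨z, hz⟩ := IsAlgClosed.exists_eq_mul_self x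
      exact ⟨z, hz.symm⟩) hS.gen (ι.comp (w : E →+* E)) (by
      intro v x
      rw [hdt]
      change _ = ι (w (algebraMap (KV T S) E _))
      rw [AlgEquiv.commutes])
    refine ⟨AlgebraicClosure F, inferInstance, ι, κ, ε, fun x => ?_⟩
    exact B_top T (RingHom.eqLocus ((th (ι.comp (w : E →+* E)) 1 1).comp φ)
      ((th ι κ ε).comp φ)) (fun g => by
      change th (ι.comp (w : E →+* E)) 1 1 (φ ⟨T g, _⟩) = th ι κ ε (φ ⟨T g, _⟩)
      rw [hφ]
      exact hκ g) x
  · intro M hM k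
    obtain ⟨k, hk⟩ := k
    have hk' := hk
    unfold KV at hk'
    induction hk' using IntermediateField.adjoin_induction with
    | mem x hx =>
      obtain ⟨g, ⟨v, hg⟩, rfl⟩ := hx
      apply hM
      refine ⟨(bT 2 T g).2, ?_⟩
      refine (hφ g).trans ?_
      rw [hvt v ⟨g, hg⟩, hdt v ⟨g, hg⟩]
    | algebraMap r =>
      have h1 : (⟨algebraMap (ZMod 2) K r, hk⟩ : KV T S) = ((r.val : ℕ) : KV T S) := by
        apply Subtype.ext
        change algebraMap (ZMod 2) K r = (((r.val : ℕ) : KV T S) : K)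
        rw [← map_natCast (algebraMap (ZMod 2) (KV T S)), ZMod.natCast_zmod_val]
        rfl
      rw [h1]
      exact natCast_mem M r.val
    | add x y hx1 hy1 h1 h2 => exact M.add_mem (h1 hx1) (h2 hy1)
    | inv x hx1 h1 => exact M.inv_mem (h1 hx1)
    | mul x y hx1 hy1 h1 h2 => exact M.mul_mem (h1 hx1) (h2 hy1)
  · obtain ⟨n, t, ht⟩ := FrF.fracGen_of_fg (BVy T S y) (sc_BVy_fg H hS.fgV hy)
      (fun x => BVy_frac y x)
    obtain ⟨d, x, π, hMB, _⟩ := FrF.exists_MB 2 (ZMod 2) (KV T S) n t ht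
    exact ⟨d, x, π, hMB⟩
  · intro x hx
    have h1 : (x : K) ∈ ly (BV T S) y := hx
    have h2 : ly (BV T S) y ≤ ly (BB 2 T) y := by
      refine Algebra.adjoin_mono (Set.insert_subset_insert ?_)
      exact BV_le S
    exact h2 h1
  · exact fun x => BVy_frac y x
  · exact fun x hx => le_ly _ y hx
  · intro x hx
    obtain ⟨β, hβ, a, rfl⟩ := ly_form (BV_le S hy) hy0 hx
    have hyK : y ∈ KV T S := ly_le_KV hy (le_ly _ y hy)
    refine ⟨⟨y, hyK⟩ ^ a, pow_ne_zero _ (fun h => hy0 (congrArg Subtype.val h)), ?_⟩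
    have h1 : algebraMap (KV T S) K (⟨y, hyK⟩ ^ a) * (β / y ^ a) = β := by
      rw [map_pow]
      change y ^ a * (β / y ^ a) = β
      rw [mul_div_cancel₀]
      exact pow_ne_zero _ hy0
    rw [h1]
    exact hβ

/-- LAU + FORM for `PropR` -/
theorem p_lauR {K₁ Γ K F : Type} [Field K₁] [Group Γ] [Field K] [Field F] [Algebra (ZMod 2) K]
    [Algebra (ZMod 2) F] [Algebra K F] {T : Γ → K} {ρ : Γ →* SL2 F} (H : Sc Γ K F T ρ)
    (S : GG Γ) (hS : S.Adm) (y : K) (hy : y ∈ BV T S) (hy0 : y ≠ 0)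
    (i₁ : K₁ →+* KV T S) (hQ : PropR 2 i₁ (BVy T S y).toSubring) :
    PropR 2 ((algebraMap (KV T S) K).comp i₁) (ly (BB 2 T) y).toSubring := by
  rw [propR_iff] at hQ ⊢
  exact fun ψ hψ => p_lauS H S hS y hy hy0 i₁ _ (hQ ψ hψ)

end Pool.Agent.SuU
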