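import Pool.Agent.Lib.MP_305fdd_al.Su.Min.H

/-!
# MP_305fdd_al, surface groups, block U (helper50): a linear form which commutes with the Cartier
operators

`κ / K₁` a finite extension of fields of characteristic two (it may be inseparable), `φ` and `ψ` Cartier
operators of `κ` and `K₁`: there is a nonzero `K₁`-linear form `t` on `κ` with `t (φ z) = ψ (t z)`.
-/

set_option autoImplicit false

namespace Pool.Agent.SuU

open Pool.Agent.FrN Pool.Agent.F2Ch Pool.Agent.F2RF Pool.Agent.SuMin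

/-- every linear form on a finite extension is a multiple of a given nonzero form -/
theorem form_mul {K₁ κ : Type} [Field K₁] [Field κ] [Algebra K₁ κ] [FiniteDimensional K₁ κ]
    {τ : κ →ₗ[K₁] K₁} (hτ : τ ≠ 0) (μ : κ →ₗ[K₁] K₁) : ∃ l : κ, ∀ w, μ w = τ (l * w) := by
  let f : κ →ₗ[K₁] (κ →ₗ[K₁] K₁) := (LinearMap.mul K₁ κ).compr₂ τ
  have hf : ∀ l w, f l w = τ (l * w) := fun l w => rfl
  have hinj : Function.Injective f := by
    rw [← LinearMap.ker_eq_bot, LinearMap.ker_eq_bot']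
    intro l hl
    by_contra hl0
    apply hτ
    ext w
    have h1 := congrArg (fun g : κ →ₗ[K₁] K₁ => g (l⁻¹ * w)) hl
    simp only [hf] at h1
    rw [mul_inv_cancel_left₀ hl0] at h1
    exact h1
  have hfr : Module.finrank K₁ κ = Module.finrank K₁ (κ →ₗ[K₁] K₁) :=
    (Subspace.dual_finrank_eq (K := K₁) (V := κ)).symm
  have hsurj := (LinearMap.injective_iff_surjective_of_finrank_eq_finrank hfr).1 hinj
  obtain ⟨l, hl⟩ := hsurj μ
  exact ⟨l, fun w => by rw [← hl]; rfl⟩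

/-- THE t-LEMMA -/
theorem exists_t {K₁ κ : Type} [Field K₁] [Field κ] [Algebra K₁ κ] [FiniteDimensional K₁ κ]
    [Algebra (ZMod 2) κ] [CharP K₁ 2] {φ : κ → κ} {ψ : K₁ → K₁} (hφ : LogTy 2 φ)
    (hψ : LogTy 2 ψ) : ∃ t : κ →ₗ[K₁] K₁, t ≠ 0 ∧ ∀ z, t (φ z) = ψ (t z) := by
  have hκ : CharP κ 2 := charP_of_injective_algebraMap (algebraMap (ZMod 2) κ).injective 2
  obtain ⟨d, s, π, g, hM, hg, hφg⟩ := hφ
  have hπ : IsPinv 2 (π j0) := mb_pinv hM j0
  have hψp : IsPinv 2 ψ := lt_pinv hψ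
  obtain ⟨τ, hτ1⟩ : ∃ τ : κ →ₗ[K₁] K₁, τ 1 ≠ 0 := by
    by_contra hcon
    push Not at hcon
    exact one_ne_zero ((Module.forall_dual_apply_eq_zero_iff K₁ (1 : κ)).1 hcon)
  have hτ : τ ≠ 0 := by
    rintro rfl
    exact hτ1 rfl
  -- `ψ (τ (w² z)) = τ (Λ z * w)`
  have h1 : ∀ z : κ, ∃ l : κ, ∀ w, ψ (τ (w ^ 2 * z)) = τ (l * w) := by
    intro z
    have hadd : ∀ w w', ψ (τ ((w + w') ^ 2 * z)) = ψ (τ (w ^ 2 * z)) + ψ (τ (w' ^ 2 * z)) := by
      intro w w'
      rw [add_pow_char, add_mul, map_add, hψp.add]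
    let μ : κ →ₗ[K₁] K₁ :=
      { toFun := fun w => ψ (τ (w ^ 2 * z))
        map_add' := hadd
        map_smul' := fun b w => by
          rw [RingHom.id_apply, smul_eq_mul, Algebra.smul_def, mul_pow, mul_assoc, ← map_pow,
            ← Algebra.smul_def, map_smul, smul_eq_mul, hψp.pow_mul] }
    obtain ⟨l, hl⟩ := form_mul hτ μ
    exact ⟨l, hl⟩
  choose Λ hΛ using h1
  have huniq : ∀ l l' : κ, (∀ w, τ (l * w) = τ (l' * w)) → l = l' := by
    intro l l' h
    by_contra hne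
    apply hτ
    ext w
    have h2 := h ((l - l')⁻¹ * w)
    rw [← sub_eq_zero, ← map_sub, ← sub_mul, mul_inv_cancel_left₀ (sub_ne_zero.2 hne)] at h2
    exact h2
  have hΛp : IsPinv 2 Λ := by
    constructor
    · intro x y
      apply huniq
      intro w
      rw [← hΛ, add_mul, map_add, ← hΛ x, ← hΛ y, ← hψp.add, mul_add, map_add]
    · intro x y
      apply huniq
      intro w
      rw [← hΛ, mul_comm x (Λ y), mul_assoc, ← hΛ y (x * w), mul_pow]
      congr 2
      ring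
  obtain ⟨u, hu⟩ : ∃ u : κ, ∀ f, Λ f = π j0 (u * f) := ⟨_, fun f => pinv_eq hM hΛp f⟩
  have hψτ : ∀ z, ψ (τ z) = τ (π j0 (u * z)) := by
    intro z
    have h2 := hΛ z 1
    rw [one_pow, one_mul, mul_one, hu] at h2
    exact h2
  have hπ0 : π j0 0 = 0 := by
    have h := hπ.add 0 0
    rw [add_zero] at h
    exact left_eq_add.1 h
  have hu0 : u ≠ 0 := by
    rintro rfl
    obtain ⟨d', s', π', g', hM', hg', hψg'⟩ := hψ
    -- `ψ` is onto
    have h3 : ∀ z, ψ (τ z) = 0 := by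
      intro z
      rw [hψτ, zero_mul, hπ0, map_zero]
    have h4 : ∀ x : K₁, ψ x = 0 := by
      intro x
      have h5 := h3 ((x * (τ 1)⁻¹) • (1 : κ))
      rw [map_smul, smul_eq_mul, mul_assoc, inv_mul_cancel₀ hτ1, mul_one] at h5
      exact h5
    have h5 := h4 g'⁻¹
    rw [hψg', mul_inv_cancel₀ hg'] at h5
    have h6 : π' j0 1 = 0 := (mul_eq_zero.1 h5).resolve_left (inv_ne_zero hg')
    have h7 : IsPinv 2 (π' j0) := mb_pinv hM' j0
    have h8 : ∀ a, π' a 1 = if a = j0 then 1 else 0 := by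
      intro a
      have h9 := hM'.pb.uniq (fun a => if a = j0 then (1 : K₁) else 0) a
      have h10 : ∑ i, (if i = j0 then (1 : K₁) else 0) ^ 2 * monY (p := 2) s' i = 1 := by
        rw [Finset.sum_eq_single (j0 : Fin d' → Fin 2)]
        · rw [if_pos rfl, one_pow, one_mul]
          simp [monY, j0]
        · intro b _ hb
          rw [if_neg hb]
          ring
        · intro h
          exact absurd (Finset.mem_univ _) h
      rw [h10] at h9
      exact h9
    rw [h8, if_pos rfl] at h6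
    exact one_ne_zero h6
  let t : κ →ₗ[K₁] K₁ := τ.comp (LinearMap.mulLeft K₁ (u * g))
  have ht : ∀ z, t z = τ (u * g * z) := fun z => rfl
  have hug : u * g ≠ 0 := mul_ne_zero hu0 hg
  refine ⟨t, ?_, ?_⟩
  · intro h0
    apply hτ1
    have h2 := ht ((u * g)⁻¹)
    rw [mul_inv_cancel₀ hug, h0] at h2
    exact h2.symm
  · intro z
    rw [ht, ht, hψτ, hφg]
    have h2 : u * (u * g * z) = u ^ 2 * (g * z) := by ring
    rw [h2, hπ.pow_mul]
    congr 1
    rw [mul_assoc u g, mul_inv_cancel_left₀ hg]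

end Pool.Agent.SuU
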